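import Mathlib

/-!
# Abstract lattice congruences from local (polygon) conditions; statements (Mathlib only)
-/

set_option autoImplicit false

namespace Pool.Agent.W236.Lt

variable {P : Type*} [PartialOrder P] {κ : Type*}

/-- a cover relation whose two ends have the same value of `K` (a contracted edge) -/
def CC (K : P → κ) (a b : P) : Prop := a ⋖ b ∧ K a = K b

/-- local conditions on the function `K` -/
structure PolyCong (K : P → κ) : Prop where
  joinLoc : ∀ x y₁ y₂, x ⋖ y₁ → x ⋖ y₂ →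
    ∃ j, IsLUB {y₁, y₂} j ∧ (K x = K y₂ → Relation.ReflTransGen (CC K) y₁ j)
  meetLoc : ∀ x y₁ y₂, y₁ ⋖ x → y₂ ⋖ x →
    ∃ m, IsGLB {y₁, y₂} m ∧ (K x = K y₂ → Relation.ReflTransGen (CC K) m y₁)
  conn : ∀ x y, K x = K y → Relation.EqvGen (CC K) x y

/-- the poset is a lattice and equality of `K` is a lattice congruence -/
structure LatCongr (K : P → κ) : Prop where
  join : ∀ x y : P, ∃ j, IsLUB {x, y} j
  meet : ∀ x y : P, ∃ m, IsGLB {x, y} m
  joinC : ∀ x y z a b, K x = K y → IsLUB {x, z} a → IsLUB {y, z} b → K a = K b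
  meetC : ∀ x y z a b, K x = K y → IsGLB {x, z} a → IsGLB {y, z} b → K a = K b

/-- order on the classes: `a ≤ b` iff the join of an element of `a` and an element of `b` is in `b` -/
def qle (K : P → κ) (a b : κ) : Prop := ∃ x y j, K x = a ∧ K y = b ∧ IsLUB {x, y} j ∧ K j = b

/-- cover relation on the classes -/
def qcov (K : P → κ) (a b : κ) : Prop :=
  qle K a b ∧ a ≠ b ∧ ∀ c, c ∈ Set.range K → qle K a c → qle K c b → c = a ∨ c = b

/-- (AT) -/
def S_AT.{u, v} : Prop := ∀ (P : Type u) [PartialOrder P] [Finite P] (κ : Type v) (K : P → κ),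
  (∃ b : P, ∀ x, b ≤ x) → (∃ t : P, ∀ x, x ≤ t) → PolyCong K → LatCongr K

/-- (HA) -/
def S_HA.{u, v} : Prop := ∀ (P : Type u) [PartialOrder P] [Finite P] (κ : Type v) (K : P → κ),
  LatCongr K → ∀ a b, a ∈ Set.range K → b ∈ Set.range K →
    (qcov K a b ↔ a ≠ b ∧ ∃ x y : P, x ⋖ y ∧ K x = a ∧ K y = b)

/-- (NEWMAN) local confluence implies confluence for a relation contained in `<` on a finite poset -/
def S_Newman.{u} : Prop := ∀ (P : Type u) [PartialOrder P] [Finite P] (R : P → P → Prop),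
  (∀ x y, R x y → x < y) →
  (∀ x y z, R x y → R x z → ∃ w, Relation.ReflTransGen R y w ∧ Relation.ReflTransGen R z w) →
  ∀ x y z, Relation.ReflTransGen R x y → Relation.ReflTransGen R x z →
    ∃ w, Relation.ReflTransGen R y w ∧ Relation.ReflTransGen R z w

end Pool.Agent.W236.Lt
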