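import Pool.Agent.W236.SC.LDefs

/-!
# Polygon conditions imply lattice congruence
-/

set_option autoImplicit false

namespace Pool.Agent.W236.Lt

universe u v

section half

variable {P : Type u} [PartialOrder P] {κ : Type v} (K : P → κ)

/-- one half of the local conditions -/
structure Half : Prop where
  bot : ∃ b : P, ∀ x, b ≤ x
  joinLoc : ∀ x y₁ y₂, x ⋖ y₁ → x ⋖ y₂ →
    ∃ j, IsLUB {y₁, y₂} j ∧ (K x = K y₂ → Relation.ReflTransGen (CC K) y₁ j)
  conn : ∀ x y, K x = K y → Relation.EqvGen (CC K) x y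

variable {K}

lemma lub_le {y z j u : P} (h : IsLUB {y, z} j) (h1 : y ≤ u) (h2 : z ≤ u) : j ≤ u := by
  apply h.2
  rintro a (rfl | rfl)
  · exact h1
  · exact h2

lemma lub_left {y z j : P} (h : IsLUB {y, z} j) : y ≤ j := h.1 (by simp)

lemma lub_right {y z j : P} (h : IsLUB {y, z} j) : z ≤ j := h.1 (by simp)

lemma mk_lub {y z j : P} (h1 : y ≤ j) (h2 : z ≤ j) (h3 : ∀ u, y ≤ u → z ≤ u → j ≤ u) :
    IsLUB {y, z} j := by
  refine ⟨?_, ?_⟩
  · rintro a (rfl | rfl)
    · exact h1
    · exact h2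
  · intro u hu
    exact h3 u (hu (by simp)) (hu (by simp))

lemma join_above [Finite P] (H : Half K) (x : P) :
    ∀ y z, x ≤ y → x ≤ z → ∃ j, IsLUB {y, z} j := by
  induction x using (wellFounded_gt (α := P)).induction with
  | _ x ih =>
  intro y z hy hz
  rcases hy.eq_or_lt with rfl | hy
  · exact ⟨z, mk_lub hz le_rfl (fun u _ h => h)⟩
  rcases hz.eq_or_lt with rfl | hz
  · exact ⟨y, mk_lub le_rfl hy.le (fun u h _ => h)⟩
  obtain ⟨y', hy1, hy2⟩ := exists_covBy_le_of_lt hy
  obtain ⟨z', hz1, hz2⟩ := exists_covBy_le_of_lt hz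
  obtain ⟨w, hw, _⟩ := H.joinLoc x y' z' hy1 hz1
  obtain ⟨a, ha⟩ := ih y' hy1.lt y w hy2 (lub_left hw)
  obtain ⟨j, hj⟩ := ih z' hz1.lt a z ((lub_right hw).trans (lub_right ha)) hz2
  refine ⟨j, mk_lub ((lub_left ha).trans (lub_left hj)) (lub_right hj) ?_⟩
  intro u h1 h2
  exact lub_le hj (lub_le ha h1 (lub_le hw (hy2.trans h1) (hz2.trans h2))) h2

lemma join_ex [Finite P] (H : Half K) (y z : P) : ∃ j, IsLUB {y, z} j := by
  obtain ⟨b, hb⟩ := H.bot
  exact join_above H b y z (hb y) (hb z)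

lemma lub_unique {y z j j' : P} (h : IsLUB {y, z} j) (h' : IsLUB {y, z} j') : j = j' :=
  h.unique h'

lemma claimA [Finite P] (H : Half K) (x : P) : ∀ x', x ⋖ x' → K x = K x' → ∀ y, x ≤ y →
    ∀ j, IsLUB {y, x'} j → K y = K j := by
  induction x using (wellFounded_gt (α := P)).induction with
  | _ x ih =>
  intro x' hxx' hK y hy j hj
  by_cases hx'y : x' ≤ y
  · have : j = y := le_antisymm (lub_le hj le_rfl hx'y) (lub_left hj)
    rw [this]
  rcases hy.eq_or_lt with rfl | hy
  · have : j = x' := le_antisymm (lub_le hj hxx'.le le_rfl) (lub_right hj)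
    rw [this, hK]
  obtain ⟨x1, hx1, hx2⟩ := exists_covBy_le_of_lt hy
  obtain ⟨p, hp, hch⟩ := H.joinLoc x x1 x' hx1 hxx'
  have hch := hch hK
  have key : ∀ c, Relation.ReflTransGen (CC K) x1 c → x1 ≤ c ∧ ∀ j, IsLUB {y, c} j → K y = K j := by
    intro c hc
    induction hc with
    | refl =>
      refine ⟨le_rfl, ?_⟩
      intro j hj
      have : j = y := le_antisymm (lub_le hj le_rfl hx2) (lub_left hj)
      rw [this]
    | @tail c c' _ hcc ihc =>
      refine ⟨ihc.1.trans hcc.1.le, ?_⟩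
      intro j' hj'
      obtain ⟨j, hj⟩ := join_ex H y c
      rw [ihc.2 j hj]
      refine ih c (hx1.lt.trans_le ihc.1) c' hcc.1 hcc.2 j (lub_right hj) j' ?_
      refine mk_lub (lub_le hj (lub_left hj') (hcc.1.le.trans (lub_right hj'))) (lub_right hj') ?_
      intro u h1 h2
      exact lub_le hj' ((lub_left hj).trans h1) h2
  refine (key p hch).2 j ?_
  refine mk_lub (lub_left hj) (lub_le hp (hx2.trans (lub_left hj)) (lub_right hj)) ?_
  intro u h1 h2
  exact lub_le hj h1 ((lub_right hp).trans h2)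

lemma joinC_half [Finite P] (H : Half K) : ∀ x y z a b, K x = K y → IsLUB {x, z} a →
    IsLUB {y, z} b → K a = K b := by
  intro x y z a b hK
  have h := H.conn x y hK
  clear hK
  induction h generalizing a b with
  | rel x y h =>
    intro ha hb
    refine claimA H x y h.1 h.2 a (lub_left ha) b ?_
    refine mk_lub (lub_le ha (h.1.le.trans (lub_left hb)) (lub_right hb)) (lub_left hb) ?_
    intro u h1 h2
    exact lub_le hb h2 ((lub_right ha).trans h1)
  | refl x =>
    intro ha hb
    rw [lub_unique ha hb]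
  | symm x y _ ih =>
    intro ha hb
    exact (ih b a hb ha).symm
  | trans x y w _ _ ih1 ih2 =>
    intro ha hb
    obtain ⟨c, hc⟩ := join_ex H y z
    exact (ih1 a c ha hc).trans (ih2 c b hc hb)

end half

theorem at_ : S_AT.{u, v} := by
  intro P _ _ κ K hb ht hP
  have H : Half K := ⟨hb, hP.joinLoc, hP.conn⟩
  have hsw : ∀ a b : P, Relation.ReflTransGen (CC K) a b →
      Relation.ReflTransGen (CC (fun x : Pᵒᵈ => K (OrderDual.ofDual x))) (OrderDual.toDual b)
        (OrderDual.toDual a) := by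
    intro a b h
    induction h with
    | refl => exact Relation.ReflTransGen.refl
    | tail _ h2 ih =>
      exact Relation.ReflTransGen.head ⟨h2.1.toDual, h2.2.symm⟩ ih
  have H' : Half (fun x : Pᵒᵈ => K (OrderDual.ofDual x)) := by
    refine ⟨?_, ?_, ?_⟩
    · obtain ⟨t, ht⟩ := ht
      exact ⟨OrderDual.toDual t, fun x => ht (OrderDual.ofDual x)⟩
    · intro x y₁ y₂ h1 h2
      obtain ⟨m, hm, hm2⟩ := hP.meetLoc (OrderDual.ofDual x) (OrderDual.ofDual y₁)
        (OrderDual.ofDual y₂) h1.ofDual h2.ofDual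
      exact ⟨OrderDual.toDual m, hm, fun hk => hsw _ _ (hm2 hk)⟩
    · intro x y h
      have := hP.conn (OrderDual.ofDual x) (OrderDual.ofDual y) h
      have h2 : ∀ a b : P, Relation.EqvGen (CC K) a b →
          Relation.EqvGen (CC (fun x : Pᵒᵈ => K (OrderDual.ofDual x))) (OrderDual.toDual a)
            (OrderDual.toDual b) := by
        intro a b h
        induction h with
        | rel a b h => exact Relation.EqvGen.symm _ _ (Relation.EqvGen.rel _ _ ⟨h.1.toDual, h.2.symm⟩)
        | refl a => exact Relation.EqvGen.refl _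
        | symm a b _ ih => exact Relation.EqvGen.symm _ _ ih
        | trans a b c _ _ ih1 ih2 => exact Relation.EqvGen.trans _ _ _ ih1 ih2
      exact h2 _ _ this
  refine ⟨fun x y => join_ex H x y, ?_, joinC_half H, ?_⟩
  · intro x y
    obtain ⟨m, hm⟩ := join_ex H' (OrderDual.toDual x) (OrderDual.toDual y)
    exact ⟨OrderDual.ofDual m, hm⟩
  · intro x y z a b hk ha hb
    exact joinC_half H' (OrderDual.toDual x) (OrderDual.toDual y) (OrderDual.toDual z)
      (OrderDual.toDual a) (OrderDual.toDual b) hk ha hb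

end Pool.Agent.W236.Lt
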