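import Pool.Agent.W970.SC.Cp
import Pool.Agent.W932.SC.CmEx
import Pool.Agent.W932.SC.Mono
import Pool.Agent.W932.SC.Quot
import Pool.Agent.W312.SC.Brick
import Pool.Agent.W970.SC.Rig
import Pool.Agent.W509.SC.Unique
import Pool.Agent.W397.SC.ReachP
import Pool.Agent.W571.SC.Bex
import Pool.Agent.W358.SC.Main
import Pool.Agent.W585.SC.Base
import Pool.Agent.W563.SC.Fin
import Pool.Agent.W932.SC.Lam
import Pool.Agent.W236.SC.Walk2

/-!
# The Walk Lemma for all finite Coxeter groups (assembly)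
-/

set_option autoImplicit false

namespace Pool.Agent.W236.SC

open Pool.Agent.Helper741 Pool.Agent.W236.Qv

theorem slwl_all {S : Type*} [Fintype S] [DecidableEq S] (G : Gph S) (hPD : G.PD) : SLWL G := by
  have h1 : S_CpEx G := Pool.Agent.W970.SC.Cp.cpEx G
  have h2 : S_CpDim G := Pool.Agent.W970.SC.Cp.cpDim G
  have h3 : S_CpMono G := Pool.Agent.W932.SC.cpMono G
  have h4 : S_CmEx G := Pool.Agent.W932.SC.cmEx G
  have h5 : S_BrickCp G := Pool.Agent.W312.SC.brickCp G
  have h6 : S_BrickSurj G := Pool.Agent.W312.SC.brickSurj G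
  have h7 : S_BrickInj G := Pool.Agent.W312.SC.brickInj G
  have h8 : S_CpQuot G := Pool.Agent.W932.SC.cpQuot G
  have h9 : S_Rs G := Pool.Agent.W932.SC.rs G
  have h10 : S_RsMono G := Pool.Agent.W932.SC.rsMono G
  have h11 : S_RsQuot G := Pool.Agent.W932.SC.rsQuot G
  have h12 : S_RigidOf G := Pool.Agent.W970.SC.Rig.rigidOf G
  have h13 : S_Unique S := Pool.Agent.W509.SC.unique
  have hR : S_Reach G := Pool.Agent.W397.SC.reach G
  have h14 : S_BrickEx G := Pool.Agent.W571.SC.brickEx G hR h4 h2 h5 h7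
  exact Pool.Agent.W358.SC.slwl G hPD h1 h2 h3 h4 h5 h6 h7 h8 h9 h10 h11 h12 h13 h14

variable {B : Type*} [Fintype B] [DecidableEq B] {M : CoxeterMatrix B}
variable {W : Type*} [Group W] (cs : CoxeterSystem M W)

theorem base_all : BaseF cs := Pool.Agent.W585.SC.base cs

include cs in
theorem m_ne [Finite W] : ∀ i j, M i j ≠ 0 := (Pool.Agent.W563.SC.fin0 cs inferInstance).1

theorem wl_all [Finite W] : S_WL cs := by
  have hF := Pool.Agent.W563.SC.fin0 cs inferInstance
  have hL : S_LamAdj M := Pool.Agent.W932.SC.lamAdj M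
  have hU : S_UnfPD M := Pool.Agent.W932.SC.unfPD M hL
  exact Pool.Agent.W236.SC2.wl_of cs (base_all cs) hF.1 hL
    (fun L hb => slwl_all (unf M L) (hU L hb hF.2))

end Pool.Agent.W236.SC
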