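import Pool.Agent.W236.SC.Defs

/-!
# Basic facts used as hypotheses of the other parts
-/

set_option autoImplicit false

namespace Pool.Agent.W236.SC

open Pool.Agent.Helper741

variable {B : Type*} [Fintype B] [DecidableEq B] {M : CoxeterMatrix B}
variable {W : Type*} [Group W] (cs : CoxeterSystem M W)

/-- (BASE) basic facts on roots and the form (true for every Coxeter system of finite rank) -/
structure BaseF : Prop where
  frm_symm : ∀ x y, frm M x y = frm M y x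
  frm_geo : ∀ (w : W) x y, frm M (geo cs w x) (geo cs w y) = frm M x y
  frm_ee : ∀ i x, frm M (ee i) x = coroot M i x
  frm_add : ∀ x y z, frm M x (y + z) = frm M x y + frm M x z
  frm_smul : ∀ (a : ℝ) x y, frm M x (a • y) = a * frm M x y
  rt_ee : ∀ i, IsRt cs (ee i)
  rt_geo : ∀ (w : W) x, IsRt cs x → IsRt cs (geo cs w x)
  rt_neg : ∀ x, IsRt cs x → IsRt cs (-x)
  rt_norm : ∀ x, IsRt cs x → frm M x x = 2
  rt_sign : ∀ x, IsRt cs x → 0 ≤ x ∨ x ≤ 0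
  rt_ne : ∀ x, IsRt cs x → x ≠ 0
  rt_pos : ∀ x, IsRt cs x → ∀ i, 0 < x i → 0 ≤ x
  rt_simple : ∀ x i, IsRt cs x → 0 ≤ x → x ≠ ee i → 0 ≤ geo cs (cs.simple i) x
  rt_supp : ∀ x i, IsRt cs x → 0 ≤ x → (∀ j, j ≠ i → x j = 0) → x = ee i
  rt_par : ∀ x y (a : ℝ), IsRt cs x → IsRt cs y → x = a • y → x = y ∨ x = - y
  conj : ∀ (w : W) i j, geo cs w (ee i) = ee j → w * cs.simple i = cs.simple j * w
  refl : ∀ (w : W) i x, geo cs (w * cs.simple i * w⁻¹) x =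
    x - frm M (geo cs w (ee i)) x • geo cs w (ee i)
  refl_inj : ∀ (w w' : W) i j, w * cs.simple i * w⁻¹ = w' * cs.simple j * w'⁻¹ ↔
    (geo cs w (ee i) = geo cs w' (ee j) ∨ geo cs w (ee i) = - geo cs w' (ee j))

/-- (FIN) facts for a finite Coxeter group -/
def S_FIN : Prop := Finite W → (∀ i j, M i j ≠ 0) ∧ (∀ x : B → ℝ, x ≠ 0 → 0 < frm M x x)

/-- (PLANE) facts on the dihedral subgroup `⟨s, t⟩` -/
def S_PLANE : Prop := ∀ (s t : B), s ≠ t → ∀ d ∈ Subgroup.closure {cs.simple s, cs.simple t},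
  (∀ x i, i ≠ s → i ≠ t → geo cs d x i = x i) ∧
  (geo cs d (ee s) ≤ 0 → geo cs d (ee t) ≤ 0 →
    (- geo cs d (ee s) = ee s ∨ - geo cs d (ee s) = ee t) ∧
    (- geo cs d (ee t) = ee s ∨ - geo cs d (ee t) = ee t) ∧
    geo cs d⁻¹ (ee s) ≤ 0 ∧ geo cs d⁻¹ (ee t) ≤ 0)

/-- (ALTF) facts on alternating products, `m = m_st` finite -/
def S_ALTF : Prop := ∀ (s t : B), s ≠ t → M s t ≠ 0 →
  (∀ k, alt cs s t k ∈ Subgroup.closure {cs.simple s, cs.simple t}) ∧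
  (∀ k, k < M s t → 0 ≤ geo cs (alt cs s t k) (ee (if Even k then s else t))) ∧
  (∀ k, 1 ≤ k → k ≤ M s t → geo cs (alt cs s t k)⁻¹ (ee s) ≤ 0) ∧
  (∀ k, k < M s t → 0 ≤ geo cs (alt cs s t k)⁻¹ (ee t)) ∧
  geo cs (alt cs s t (M s t))⁻¹ (ee t) ≤ 0 ∧
  geo cs (alt cs s t (M s t - 1)) (ee (if Even (M s t - 1) then s else t)) = ee t

end Pool.Agent.W236.SC
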