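import Pool.Agent.W236.SC.All1
import Pool.Agent.W932.SC.Plane
import Pool.Agent.W612.SC.Einv
import Pool.Agent.W540.SC.Alt
import Pool.Agent.W509.SC.Roots
import Pool.Agent.W509.SC.Flip
import Pool.Agent.W591.SC.K
import Pool.Agent.W253.SC.KexKun
import Pool.Agent.W249.SC.Weak
import Pool.Agent.W154.SC.Poly
import Pool.Agent.W509.SC.Common
import Pool.Agent.W612.SC.Dih
import Pool.Agent.W358.SC.Alt2
import Pool.Agent.W591.SC.Simp
import Pool.Agent.W154.SC.Pf
import Pool.Agent.W932.SC.Conn
import Pool.Agent.W509.SC.Aw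
import Pool.Agent.W101.SC.Dp
import Pool.Agent.W932.SC.Ci
import Pool.Agent.W928.SC.GH
import Pool.Agent.W970.SC.HA
import Pool.Agent.W12.SC.Lc
import Pool.Agent.W230.SC.Graph

/-!
# Assembly of the parts
-/

set_option autoImplicit false

namespace Pool.Agent.W236.SC

open Pool.Agent.Helper741

universe u v

variable {B : Type u} [Fintype B] [DecidableEq B] {M : CoxeterMatrix B}
variable {W : Type v} [Group W] (cs : CoxeterSystem M W)

theorem einv_all : S_EINV cs := Pool.Agent.W612.SC.Einv.einv cs (base_all cs)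

theorem alt_all [Finite W] : S_ALT cs :=
  Pool.Agent.W540.SC.alt_ cs (base_all cs) (wl_all cs) (einv_all cs)

theorem roots_all : S_ROOTS cs := Pool.Agent.W509.SC.roots cs (base_all cs)

theorem flip_all : S_FLIP cs := Pool.Agent.W509.SC.flip cs (base_all cs)

theorem flipr_all : S_FLIPR cs := Pool.Agent.W509.SC.flipr cs (base_all cs)

theorem flipc_all : S_FLIPC cs := Pool.Agent.W509.SC.flipc cs (base_all cs) (roots_all cs)

theorem k0_all : S_K0 cs := Pool.Agent.W591.SC.k0 cs (base_all cs) (roots_all cs) (flipr_all cs)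

theorem cross_all : S_CROSS cs :=
  Pool.Agent.W591.SC.cross cs (base_all cs) (roots_all cs) (flip_all cs) (flipr_all cs)

theorem weak_all : S_WEAK cs := Pool.Agent.W249.SC.weak cs (base_all cs)

theorem plane_all : S_PLANE cs := Pool.Agent.W932.SC.plane cs (base_all cs)

theorem altf_all : S_ALTF cs := Pool.Agent.W932.SC.altf cs

theorem poly_all : S_POLY cs :=
  Pool.Agent.W154.SC.poly cs (base_all cs) (weak_all cs) (plane_all cs) (altf_all cs)

theorem dih_all : S_DIH cs := Pool.Agent.W612.SC.DihP.dih cs (base_all cs) (plane_all cs)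

theorem conn_all : S_CONN cs := Pool.Agent.W932.SC.conn cs (base_all cs) (weak_all cs)

theorem ext_all : S_EXT cs := Pool.Agent.W932.SC.ext_ cs (base_all cs)

theorem kex_all : S_KEX cs :=
  Pool.Agent.W253.SC.kex cs (base_all cs) (k0_all cs) (cross_all cs) (weak_all cs)

theorem kun_all : S_KUN cs :=
  Pool.Agent.W253.SC.kun cs (base_all cs) (roots_all cs) (k0_all cs) (cross_all cs) (flip_all cs)
    (flipr_all cs)

theorem common_all : S_COMMON cs :=
  Pool.Agent.W509.SC.Common.common cs (flip_all cs) (cross_all cs) (kex_all cs) (kun_all cs)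
    (weak_all cs) (poly_all cs) (plane_all cs) (altf_all cs)

theorem alt2_all [Finite W] : S_ALT2 cs :=
  Pool.Agent.W358.SC.alt2 cs (base_all cs) (alt_all cs) (roots_all cs) (plane_all cs)

theorem simp_all [Finite W] : S_SIMP cs :=
  Pool.Agent.W591.SC.simp_ (base_all cs) (alt2_all cs) (dih_all cs) (roots_all cs) (plane_all cs)
    (altf_all cs) (weak_all cs)

theorem pf1_all [Finite W] : S_PF1 cs :=
  Pool.Agent.W154.SC.pf1 cs (base_all cs) (roots_all cs) (flip_all cs) (flipr_all cs)
    (cross_all cs) (kex_all cs) (kun_all cs) (weak_all cs) (poly_all cs) (plane_all cs)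
    (altf_all cs) (common_all cs) (simp_all cs)

theorem pf2_all [Finite W] : S_PF2 cs :=
  Pool.Agent.W154.SC.pf2 cs (base_all cs) (roots_all cs) (flip_all cs) (flipr_all cs)
    (cross_all cs) (kex_all cs) (kun_all cs) (weak_all cs) (poly_all cs) (plane_all cs)
    (altf_all cs) (common_all cs) (simp_all cs)

theorem aw1_all [Finite W] : S_AW1 cs :=
  Pool.Agent.W509.SC.Aw.aw1 cs (base_all cs) (wl_all cs) (roots_all cs)

theorem seg_all [Finite W] : S_SEG cs :=
  Pool.Agent.W509.SC.Aw.seg cs (base_all cs) (wl_all cs) (roots_all cs)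

theorem db_all [Finite W] : S_DB cs :=
  Pool.Agent.W509.SC.Aw.db cs (base_all cs) (roots_all cs) (seg_all cs)

theorem dp_all [Finite W] : S_DP cs :=
  Pool.Agent.W101.SC.dp cs (base_all cs) (roots_all cs) (flip_all cs) (aw1_all cs) (seg_all cs)

theorem ci_all [Finite W] : S_CI cs :=
  Pool.Agent.W932.SC.ci cs (base_all cs) (flip_all cs) (cross_all cs) (kex_all cs) (kun_all cs)
    (weak_all cs) (aw1_all cs) (db_all cs) (dp_all cs)

theorem gh_all [Finite W] : S_GH cs :=
  Pool.Agent.W928.SC.GH.gh' cs (m_ne cs) (base_all cs) (roots_all cs) (cross_all cs) (kex_all cs)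
    (kun_all cs) (weak_all cs) (poly_all cs) (plane_all cs) (altf_all cs) (pf1_all cs)
    (pf2_all cs) (ci_all cs)

theorem sort_all : S_SORT cs :=
  Pool.Agent.W230.SC.sort_ cs (base_all cs) (roots_all cs) (cross_all cs) (kex_all cs)
    (kun_all cs) (weak_all cs)

theorem subw_all : S_SUBW cs := Pool.Agent.W230.SC.subw cs (base_all cs) (roots_all cs)

theorem lc_of [Finite W] (hAT : Lt.S_AT.{v, 0}) : S_LC cs :=
  Pool.Agent.W12.SC.lc cs hAT (m_ne cs) (base_all cs) (kex_all cs) (kun_all cs) (weak_all cs)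
    (poly_all cs) (pf1_all cs) (pf2_all cs) (conn_all cs)

theorem he_of [Finite W] (hLC : S_LC cs) : S_HE cs :=
  Pool.Agent.W12.SC.he cs Pool.Agent.W970.SC.HA.ha hLC (kex_all cs) (kun_all cs) (weak_all cs)

theorem graph_of [Finite W] (hWa : S_WALL cs) : S_GRAPH cs :=
  Pool.Agent.W230.SC.graph cs (base_all cs) (roots_all cs) (flip_all cs) (flipc_all cs)
    (cross_all cs) (kun_all cs) (weak_all cs) (ext_all cs) hWa (gh_all cs)

end Pool.Agent.W236.SC
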