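import Pool.Agent.W236.SC.Final

/-!
# The case of no generators
-/

set_option autoImplicit false

namespace Pool.Agent.W236.SCF

open Pool.Agent.Helper741 Pool.Agent.W236.SC

universe u v

variable {B : Type u} [Fintype B] [DecidableEq B] {M : CoxeterMatrix B}
variable {W : Type v} [Group W] (cs : CoxeterSystem M W)

include cs in
lemma subsingleton_of_isEmpty [IsEmpty B] : Subsingleton W := by
  constructor
  have h : ∀ w : W, w = 1 := by
    intro w
    obtain ⟨l, rfl⟩ := cs.wordProd_surjective w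
    cases l with
    | nil => simp
    | cons b _ => exact isEmptyElim b
  intro a b
  rw [h a, h b]

lemma len_empty (Q : List B) [IsEmpty B] : Q.length = 0 := by
  cases Q with
  | nil => rfl
  | cons b _ => exact isEmptyElim b

lemma fin_empty (Q : List B) [IsEmpty B] : IsEmpty (Fin Q.length) := by
  rw [len_empty Q]
  infer_instance

lemma isFacet_empty [IsEmpty B] (Q : List B) (ω : W) (I : Finset (Fin Q.length)) :
    IsFacet cs Q ω I := by
  have hs := subsingleton_of_isEmpty cs
  have he := fin_empty Q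
  refine ⟨Subsingleton.elim _ _, ?_⟩
  have h1 : cs.length ω = 0 := by
    rw [Subsingleton.elim ω 1, cs.length_one]
  rw [h1, Finset.card_eq_zero]
  exact Finset.eq_empty_of_isEmpty _

lemma mem_linExt_empty [IsEmpty B] (Q : List B) (I : Finset (Fin Q.length)) (x : W) :
    x ∈ LinExt cs Q I := by
  have he := fin_empty Q
  intro k
  exact isEmptyElim k

lemma wle_empty [IsEmpty B] (x y : W) : WLe cs x y := by
  have hs := subsingleton_of_isEmpty cs
  have h1 : ∀ w : W, cs.length w = 0 := fun w => by rw [Subsingleton.elim w 1, cs.length_one]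
  rw [WLe, h1, h1, h1]

lemma fs_empty [IsEmpty B] (Q : List B) (I J : Finset (Fin Q.length)) : I = J := by
  have he := fin_empty Q
  rw [Finset.eq_empty_of_isEmpty I, Finset.eq_empty_of_isEmpty J]

theorem latCong_empty [IsEmpty B] (Q : List B) (ω : W) : IsLatticeCongruence cs Q ω := by
  refine ⟨?_, ?_, ?_, ?_, ?_⟩
  · intro x _
    exact ⟨∅, ⟨isFacet_empty cs Q ω _, mem_linExt_empty cs Q _ x⟩, fun J _ => fs_empty Q _ _⟩
  · intro x y _ _
    exact ⟨1, wle_empty cs _ _, wle_empty cs _ _, wle_empty cs _ _, fun u _ _ _ => wle_empty cs _ _⟩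
  · intro x y _ _
    exact ⟨1, wle_empty cs _ _, wle_empty cs _ _, wle_empty cs _ _, fun u _ _ _ => wle_empty cs _ _⟩
  · intro x y z a b _ _ _ _ _ _
    exact ⟨∅, isFacet_empty cs Q ω _, mem_linExt_empty cs Q _ _, mem_linExt_empty cs Q _ _⟩
  · intro x y z a b _ _ _ _ _ _
    exact ⟨∅, isFacet_empty cs Q ω _, mem_linExt_empty cs Q _ _, mem_linExt_empty cs Q _ _⟩

theorem cov_iff_empty [IsEmpty B] (Q : List B) (ω : W) (a b : Cls cs Q ω)
    (I J : Finset (Fin Q.length)) : Cls.cov cs Q ω a b ↔ Arc cs Q I J := by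
  have he := fin_empty Q
  constructor
  · rintro ⟨_, h, _⟩
    exfalso
    apply h
    induction a using Quot.ind with | _ x =>
    induction b using Quot.ind with | _ y =>
    exact Quot.sound ⟨∅, isFacet_empty cs Q ω _, mem_linExt_empty cs Q _ _,
      mem_linExt_empty cs Q _ _⟩
  · rintro ⟨i, _⟩
    exact isEmptyElim i

lemma acyclic_iff_empty [IsEmpty B] (Q : List B) (ω : W) (I : Finset (Fin Q.length)) :
    StronglyAcyclic cs Q ω I ↔ Acyclic cs Q ω I :=
  ⟨fun h => ⟨h.1, 1, mem_linExt_empty cs Q _ _⟩,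
    fun h => ⟨h.1, 1, wle_empty cs _ _, mem_linExt_empty cs Q _ _⟩⟩

end Pool.Agent.W236.SCF
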