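import Pool.Agent.W236.SC.All2
import Pool.Agent.W236.SC.AT
import Pool.Agent.W236.SC.Empty
import Pool.Agent.W932.SC.Wall

/-!
# The theorems on subword complexes of alternating words, all finite Coxeter groups
-/

set_option autoImplicit false

namespace Pool.Agent.W236.SC

open Pool.Agent.Helper741

universe u v

variable {B : Type u} [Fintype B] [DecidableEq B] {M : CoxeterMatrix B}
variable {W : Type v} [Group W] (cs : CoxeterSystem M W)

theorem lc_all [Finite W] : S_LC cs := lc_of cs Lt.at_

theorem he_all [Finite W] : S_HE cs := he_of cs (lc_all cs)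

theorem wall_all [Finite W] : S_WALL cs := Pool.Agent.W932.SC.wall cs (base_all cs)

theorem graph_all [Finite W] : S_GRAPH cs := graph_of cs (wall_all cs)

end Pool.Agent.W236.SC

namespace Pool.Agent.W236.SCF

open Pool.Agent.Helper741 Pool.Agent.W236.SC

universe u v

variable {B : Type u} [Fintype B] [DecidableEq B] {M : CoxeterMatrix B}
variable {W : Type v} [Group W] [Finite W] (cs : CoxeterSystem M W)

/-- the lattice congruence theorem -/
theorem latCong (Q : List B) (ω : W) (hQ : Alternating cs Q) (hne : ∃ I, IsFacet cs Q ω I) :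
    IsLatticeCongruence cs Q ω := by
  cases isEmpty_or_nonempty B with
  | inl h => exact latCong_empty cs Q ω
  | inr h =>
    exact latCong_of cs (Classical.choice h) (kex_all cs) (kun_all cs) (lc_all cs) Q hQ ω hne

/-- the Hasse diagram theorem -/
theorem hasse (Q : List B) (ω : W) (hQ : Alternating cs Q) (hC : IsLatticeCongruence cs Q ω) :
    ∃ e : Cls cs Q ω ≃ {I : Finset (Fin Q.length) // StronglyAcyclic cs Q ω I},
      (∀ x : Ival cs ω, x.1 ∈ LinExt cs Q (e (Quot.mk _ x)).1) ∧
      ∀ a b, Cls.cov cs Q ω a b ↔ Arc cs Q (e a).1 (e b).1 := by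
  refine ⟨eqv cs Q ω hC, fun x => ?_, fun a b => ?_⟩
  · rw [eqv_mk]
    exact (fac_spec cs Q ω hC x).2
  · cases isEmpty_or_nonempty B with
    | inl h => exact cov_iff_empty cs Q ω a b _ _
    | inr h =>
      exact cov_iff cs Q ω (Classical.choice h) (kun_all cs) (he_all cs) (graph_all cs) hQ hC a b

/-- sorting alternating words -/
theorem sorting (Q : List B) (ω : W) (hS : Sorting cs Q) (hQ : Alternating cs Q) :
    IsLatticeCongruence cs Q ω ∧
    ∃ e : Cls cs Q ω ≃ {I : Finset (Fin Q.length) // Acyclic cs Q ω I},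
      (∀ x : Ival cs ω, x.1 ∈ LinExt cs Q (e (Quot.mk _ x)).1) ∧
      ∀ a b, Cls.cov cs Q ω a b ↔ Arc cs Q (e a).1 (e b).1 := by
  have hne : ∃ I, IsFacet cs Q ω I := by
    cases isEmpty_or_nonempty B with
    | inl h => exact ⟨∅, isFacet_empty cs Q ω _⟩
    | inr h =>
      obtain ⟨U, hU⟩ := sorting_us cs (Classical.choice h) Q hS (subw_all cs) ω
      obtain ⟨I, rfl⟩ := exists_us cs (Classical.choice h) Q ω U hU
      exact ⟨I, (isFac_us cs (Classical.choice h) Q ω I).1 hU⟩
  have hC := latCong cs Q ω hQ hne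
  have hac : ∀ I, StronglyAcyclic cs Q ω I ↔ Acyclic cs Q ω I := by
    intro I
    cases isEmpty_or_nonempty B with
    | inl h => exact acyclic_iff_empty cs Q ω I
    | inr h =>
      exact acyclic_iff cs (Classical.choice h) Q hS (subw_all cs) (sort_all cs) ω I
  obtain ⟨e, h1, h2⟩ := hasse cs Q ω hQ hC
  exact ⟨hC, e.trans (Equiv.subtypeEquivRight hac), h1, h2⟩

end Pool.Agent.W236.SCF
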