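import Pool.Agent.W236.SC.FDefs

/-!
# From words as lists to words as functions on `ℕ`
-/

set_option autoImplicit false

namespace Pool.Agent.W236.SCF

open Pool.Agent.Helper741 Pool.Agent.W236.SC

universe u v

variable {B : Type u} [Fintype B] [DecidableEq B] {M : CoxeterMatrix B}
variable {W : Type v} [Group W] (cs : CoxeterSystem M W)

/-- the word as a function -/
def qq (b0 : B) (Q : List B) (k : ℕ) : B := Q.getD k b0

/-- the used positions -/
def us (Q : List B) (I : Finset (Fin Q.length)) : Finset ℕ := (Iᶜ).map Fin.valEmbedding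

omit [Fintype B] [DecidableEq B] in
lemma qq_eq (b0 : B) (Q : List B) (k : Fin Q.length) : qq b0 Q k = Q.get k := by
  simp [qq]

omit [Fintype B] [DecidableEq B] in
lemma mem_us (Q : List B) (I : Finset (Fin Q.length)) (k : ℕ) :
    k ∈ us Q I ↔ ∃ h : k < Q.length, (⟨k, h⟩ : Fin Q.length) ∉ I := by
  simp only [us, Finset.mem_map, Finset.mem_compl, Fin.valEmbedding_apply]
  constructor
  · rintro ⟨a, ha, rfl⟩
    exact ⟨a.2, ha⟩
  · rintro ⟨h, h1⟩
    exact ⟨⟨k, h⟩, h1, rfl⟩

omit [Fintype B] [DecidableEq B] in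
lemma mem_us_fin (Q : List B) (I : Finset (Fin Q.length)) (k : Fin Q.length) :
    (k : ℕ) ∈ us Q I ↔ k ∉ I := by
  rw [mem_us]
  exact ⟨fun ⟨_, h⟩ => h, fun h => ⟨k.2, h⟩⟩

omit [Fintype B] [DecidableEq B] in
lemma us_injective (Q : List B) : Function.Injective (us Q) := by
  intro I J h
  ext k
  have := mem_us_fin Q I k
  have h2 := mem_us_fin Q J k
  rw [h] at this
  tauto

lemma pf_us (b0 : B) (Q : List B) (I : Finset (Fin Q.length)) (k : ℕ) (hk : k ≤ Q.length) :
    pf cs (qq b0 Q) (us Q I) k = pre cs Q I k := by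
  induction k with
  | zero => rfl
  | succ k ih =>
    have hk' : k < Q.length := by omega
    have e1 : qq b0 Q k = Q.get ⟨k, hk'⟩ := qq_eq b0 Q ⟨k, hk'⟩
    have e2 : k ∈ us Q I ↔ (⟨k, hk'⟩ : Fin Q.length) ∉ I := mem_us_fin Q I ⟨k, hk'⟩
    simp only [pf, pre, dif_pos hk', ih (by omega), e1]
    by_cases h : (⟨k, hk'⟩ : Fin Q.length) ∈ I
    · rw [if_neg (by rw [e2]; simpa using h), if_pos h]
    · rw [if_pos (by rw [e2]; exact h), if_neg h]

lemma rt_us (b0 : B) (Q : List B) (I : Finset (Fin Q.length)) (k : Fin Q.length) :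
    rt cs (qq b0 Q) (us Q I) k = root cs Q I k := by
  unfold rt root
  rw [pf_us cs b0 Q I k k.2.le, qq_eq]

lemma isFac_us (b0 : B) (Q : List B) (ω : W) (I : Finset (Fin Q.length)) :
    IsFac cs Q.length (qq b0 Q) ω (us Q I) ↔ IsFacet cs Q ω I := by
  constructor
  · intro h
    refine ⟨?_, ?_⟩
    · rw [← pf_us cs b0 Q I _ le_rfl]; exact h.prod
    · have := h.card
      rwa [us, Finset.card_map] at this
  · intro h
    refine ⟨?_, ?_, ?_⟩
    · intro k hk
      exact ((mem_us Q I k).1 hk).1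
    · rw [pf_us cs b0 Q I _ le_rfl]; exact h.1
    · rw [us, Finset.card_map]; exact h.2

lemma exists_us (b0 : B) (Q : List B) (ω : W) (U : Finset ℕ)
    (h : IsFac cs Q.length (qq b0 Q) ω U) : ∃ I, us Q I = U := by
  classical
  refine ⟨Finset.univ.filter (fun k : Fin Q.length => (k : ℕ) ∉ U), ?_⟩
  ext k
  rw [mem_us]
  constructor
  · rintro ⟨hk, h1⟩
    by_contra hc
    exact h1 (by simp [hc])
  · intro hk
    refine ⟨h.sub k hk, ?_⟩
    simp [hk]

lemma geo_posRoot (π : W) (x : B → ℝ) (hx : IsRt cs x) :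
    (∃ β ∈ PosRoots cs, x = geo cs π β) ↔ 0 ≤ geo cs π⁻¹ x := by
  constructor
  · rintro ⟨β, hβ, rfl⟩
    rw [geo_inv_apply]
    exact hβ.2
  · intro h
    refine ⟨geo cs π⁻¹ x, ⟨?_, h⟩, by rw [geo_apply_inv]⟩
    obtain ⟨w, i, rfl⟩ := hx
    exact ⟨π⁻¹ * w, i, by rw [map_mul, Module.End.mul_apply]⟩

lemma pos_us (b0 : B) (Q : List B) (I : Finset (Fin Q.length)) (π : W) :
    Pos cs Q.length (qq b0 Q) (us Q I) π ↔ π ∈ LinExt cs Q I := by
  constructor
  · intro h k hk
    rw [geo_posRoot]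
    · rw [← rt_us cs b0]
      exact h k k.2 (by rw [mem_us_fin]; simpa using hk)
    · exact ⟨_, _, rfl⟩
  · intro h k hk hkU
    have h1 : (⟨k, hk⟩ : Fin Q.length) ∈ I := by
      by_contra hc
      exact hkU ((mem_us Q I k).2 ⟨hk, hc⟩)
    have h2 := h ⟨k, hk⟩ h1
    rw [geo_posRoot] at h2
    · rw [← rt_us cs b0] at h2
      exact h2
    · exact ⟨_, _, rfl⟩

lemma isK_us (b0 : B) (Q : List B) (ω π : W) (I : Finset (Fin Q.length)) :
    IsK cs Q.length (qq b0 Q) ω π (us Q I) ↔ IsFacet cs Q ω I ∧ π ∈ LinExt cs Q I := by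
  constructor
  · intro h
    exact ⟨(isFac_us cs b0 Q ω I).1 h.fac, (pos_us cs b0 Q I π).1 h.pos⟩
  · intro h
    exact ⟨(isFac_us cs b0 Q ω I).2 h.1, (pos_us cs b0 Q I π).2 h.2⟩

/-- if `M s t ≠ 2` then the generators do not commute -/
lemma not_comm (s t : B) (hst : s ≠ t) (h2 : M s t ≠ 2) :
    cs.simple s * cs.simple t ≠ cs.simple t * cs.simple s := by
  intro h
  have h1 : geo cs (cs.simple s * cs.simple t) (ee t) = geo cs (cs.simple t * cs.simple s) (ee t) := by
    rw [h]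
  simp only [map_mul, Module.End.mul_apply, geo_simple] at h1
  rw [sg_ee_self, map_neg, sg_ee, map_add, map_smul, sg_ee_self, sg_ee] at h1
  have h3 := congrFun h1 s
  simp [ee, Pi.single_apply, hst] at h3
  have hc : cc M s t = 0 := by
    have hc' : cc M t s = cc M s t := cc_symm M t s
    rw [hc'] at h3
    linarith
  unfold cc at hc
  have hM1 : M s t ≠ 1 := M.off_diagonal s t hst
  rcases Nat.eq_zero_or_pos (M s t) with h0 | hpos
  · rw [h0] at hc; simp at hc
  · have h3m : (3 : ℝ) ≤ (M s t : ℝ) := by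
      have : 3 ≤ M s t := by omega
      exact_mod_cast this
    have hpos' : 0 < Real.cos (Real.pi / (M s t : ℝ)) := by
      apply Real.cos_pos_of_mem_Ioo
      constructor
      · have : 0 < Real.pi / (M s t : ℝ) := div_pos Real.pi_pos (by linarith)
        have := Real.pi_pos
        linarith
      · have h5 : Real.pi / (M s t : ℝ) ≤ Real.pi / 3 :=
          div_le_div_of_nonneg_left Real.pi_pos.le (by norm_num) h3m
        have := Real.pi_pos
        linarith
    linarith

lemma altM_us (b0 : B) (Q : List B) (h : Alternating cs Q) : AltM M Q.length (qq b0 Q) := by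
  intro s t hst h2 i j hij hj hi' hj'
  have hi : i < Q.length := by omega
  obtain ⟨k, h1, h2, h3⟩ := h s t (not_comm cs s t hst h2) ⟨i, hi⟩ ⟨j, hj⟩ (by simpa using hij)
    (by rw [← qq_eq b0]; exact hi') (by rw [← qq_eq b0]; exact hj')
  exact ⟨k, h1, h2, by rw [qq_eq]; exact h3⟩

end Pool.Agent.W236.SCF
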