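import Mathlib

/-!
# Representations of finite graphs with changing orientation (quivers), over `ℚ`

Helper definitions and statements (Mathlib only) for the Walk Lemma in the simply laced case.
-/

set_option autoImplicit false

namespace Pool.Agent.W236.Qv

/-- a finite simple graph with `Bool`-valued adjacency -/
structure Gph (S : Type*) where
  adj : S → S → Bool
  symm : ∀ s t, adj s t = adj t s
  irr : ∀ s, adj s s = false

/-- a family of vector spaces `ℚ ^ d i` with a linear map for each ordered pair of vertices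
(only those on the arrows of the current orientation will matter) -/
structure Rep (S : Type*) where
  d : S → ℕ
  f : ∀ i j : S, (Fin (d i) → ℚ) →ₗ[ℚ] (Fin (d j) → ℚ)

section
variable {S : Type*} [Fintype S] [DecidableEq S] (G : Gph S)

/-- orientation: a function `p : S → ℕ` (time of the next occurrence); there is an arrow `i → j` iff
`i, j` are adjacent and `p j < p i` (arrows point to the vertex which comes first). -/
def Gph.arr (p : S → ℕ) (i j : S) : Prop := G.adj i j = true ∧ p j < p i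

/-- `p` separates adjacent vertices -/
def Gph.Fr (p : S → ℕ) : Prop := ∀ i j, G.adj i j = true → p i ≠ p j

/-- `p'` is obtained from `p` by moving `r` from first (sink) to last (source) among its neighbours -/
def Gph.Rot (p : S → ℕ) (r : S) (p' : S → ℕ) : Prop :=
  (∀ j, j ≠ r → p' j = p j) ∧ ∀ j, G.adj r j = true → p r < p j ∧ p j < p' r

/-- simple reflection on integer vectors -/
def Gph.sr (r : S) (x : S → ℤ) : S → ℤ :=
  Function.update x r (- x r + ∑ t, if G.adj r t then x t else 0)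

/-- twice the Tits form -/
def Gph.qf (x : S → ℤ) : ℤ := ∑ i, x i * (2 * x i - ∑ t, if G.adj i t then x t else 0)

/-- the Tits form is positive definite over `ℝ` -/
def Gph.PD : Prop :=
  ∀ x : S → ℝ, x ≠ 0 → 0 < ∑ i, x i * (2 * x i - ∑ t, if G.adj i t then x t else 0)

/-- morphisms of representations for the orientation `p` -/
def IsHom (p : S → ℕ) (M N : Rep S)
    (φ : ∀ i, (Fin (M.d i) → ℚ) →ₗ[ℚ] (Fin (N.d i) → ℚ)) : Prop :=
  ∀ i j, G.arr p i j → (N.f i j) ∘ₗ (φ i) = (φ j) ∘ₗ (M.f i j)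

/-- nonzero representation with only scalar endomorphisms -/
def Brick (p : S → ℕ) (M : Rep S) : Prop :=
  (∃ i, M.d i ≠ 0) ∧ ∀ φ, IsHom G p M M φ → ∃ c : ℚ, ∀ i, φ i = c • LinearMap.id

/-- an isomorphism `V ≅ V'` outside the vertex `r` (`e r` is arbitrary) -/
structure OutIso (p : S → ℕ) (r : S) (V V' : Rep S)
    (e : ∀ i, (Fin (V.d i) → ℚ) →ₗ[ℚ] (Fin (V'.d i) → ℚ)) : Prop where
  bij : ∀ i, i ≠ r → Function.Bijective (e i)
  com : ∀ i j, i ≠ r → j ≠ r → G.arr p i j → (V'.f i j) ∘ₗ (e i) = (e j) ∘ₗ (V.f i j)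

/-- `V'` is (a copy of) the reflection `C⁺_r V`: outside `r` it is `V`, and `V'_r` is the kernel of
`⊕_{t adj r} V_t → V_r`. -/
structure IsCp (p : S → ℕ) (r : S) (V V' : Rep S)
    (e : ∀ i, (Fin (V.d i) → ℚ) →ₗ[ℚ] (Fin (V'.d i) → ℚ)) : Prop where
  out : OutIso G p r V V' e
  inj : ∀ x : Fin (V'.d r) → ℚ, (∀ t, G.adj r t = true → V'.f r t x = 0) → x = 0
  ex : ∀ y : ∀ t, Fin (V.d t) → ℚ, (∑ t, if G.adj r t then V.f t r (y t) else 0) = 0 ↔
    ∃ x : Fin (V'.d r) → ℚ, ∀ t, G.adj r t = true → V'.f r t x = e t (y t)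

/-- `⊕_{t adj r} V_t → V_r` is onto -/
def SurjAt (r : S) (V : Rep S) : Prop :=
  ∀ z : Fin (V.d r) → ℚ, ∃ y : ∀ t, Fin (V.d t) → ℚ,
    (∑ t, if G.adj r t then V.f t r (y t) else 0) = z

/-- `V_r → ⊕_{t adj r} V_t` is injective -/
def InjAt (r : S) (V : Rep S) : Prop :=
  ∀ x : Fin (V.d r) → ℚ, (∀ t, G.adj r t = true → V.f r t x = 0) → x = 0

/-- (Q1) existence of the reflection `C⁺` -/
def S_CpEx : Prop := ∀ (p : S → ℕ) (r : S) (V : Rep S), ∃ V' e, IsCp G p r V V' e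

/-- (Q1b) dimensions -/
def S_CpDim : Prop := ∀ (p : S → ℕ) (r : S) (V V' : Rep S) (e), IsCp G p r V V' e →
  (∀ i, i ≠ r → V'.d i = V.d i) ∧
  ∃ c : ℕ, V'.d r + V.d r = (∑ t, if G.adj r t then V.d t else 0) + c ∧
    (SurjAt G r V → c = 0) ∧
    (c ≠ 0 → ∃ l : (Fin (V.d r) → ℚ) →ₗ[ℚ] ℚ, l ≠ 0 ∧ ∀ t, G.adj r t = true → l ∘ₗ V.f t r = 0)

/-- (Q2) `C⁺` preserves monomorphisms -/
def S_CpMono : Prop := ∀ (p p' : S → ℕ) (r : S) (V V' M M' : Rep S) (e e'), G.Rot p r p' →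
  IsCp G p r V V' e → IsCp G p r M M' e' → ∀ φ, IsHom G p V M φ → (∀ i, Function.Injective (φ i)) →
  ∃ φ', IsHom G p' V' M' φ' ∧ ∀ i, Function.Injective (φ' i)

/-- (Q3) existence of the reflection `C⁻` -/
def S_CmEx : Prop := ∀ (p : S → ℕ) (r : S) (N' : Rep S), InjAt G r N' →
  ∃ N e, IsCp G p r N N' e ∧ SurjAt G r N

/-- (Q4) reflections preserve bricks -/
def S_BrickCp : Prop := ∀ (p p' : S → ℕ) (r : S) (N N' : Rep S) (e), G.Rot p r p' →
  IsCp G p r N N' e → SurjAt G r N → (Brick G p N ↔ Brick G p' N')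

/-- (Q4b) a brick with sink `r` which is not simple at `r` is onto at `r` -/
def S_BrickSurj : Prop := ∀ (p : S → ℕ) (r : S) (N : Rep S), (∀ j, G.adj r j = true → p r < p j) →
  Brick G p N → N.d ≠ Pi.single r 1 → SurjAt G r N

/-- (Q4c) a brick with source `r` which is not simple at `r` is injective at `r` -/
def S_BrickInj : Prop := ∀ (p : S → ℕ) (r : S) (N : Rep S), (∀ j, G.adj r j = true → p j < p r) →
  Brick G p N → N.d ≠ Pi.single r 1 → InjAt G r N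

/-- (Q5) quotients -/
def S_CpQuot : Prop := ∀ (p p' : S → ℕ) (r : S) (V V' N N' : Rep S) (e e'), G.Rot p r p' →
  IsCp G p r V V' e → IsCp G p r N N' e' → SurjAt G r N →
  ∀ ψ', IsHom G p' V' N' ψ' → (∀ i, Function.Surjective (ψ' i)) →
  ∃ ψ, IsHom G p V N ψ ∧ ∀ i, Function.Surjective (ψ i)

/-- (Q6) restriction to the complement of `r` -/
def S_Rs : Prop := ∀ (p : S → ℕ) (r : S) (V : Rep S), ∃ V' e, OutIso G p r V V' e ∧ V'.d r = 0

def S_RsMono : Prop := ∀ (p p' : S → ℕ) (r : S) (V V' M M' : Rep S) (e e'), G.Rot p r p' →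
  OutIso G p r V V' e → V'.d r = 0 → OutIso G p r M M' e' →
  ∀ φ, IsHom G p V M φ → (∀ i, Function.Injective (φ i)) →
  ∃ φ', IsHom G p' V' M' φ' ∧ ∀ i, Function.Injective (φ' i)

def S_RsQuot : Prop := ∀ (p p' : S → ℕ) (r : S) (V V' N' : Rep S) (e), G.Rot p r p' →
  OutIso G p r V V' e → V'.d r = 0 → Brick G p' N' →
  ∀ ψ', IsHom G p' V' N' ψ' → (∀ i, Function.Surjective (ψ' i)) →
  N'.d r = 0 ∧ Brick G p N' ∧ ∃ ψ, IsHom G p V N' ψ ∧ ∀ i, Function.Surjective (ψ i)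

/-- rigidity with respect to a set of arrows `ar` -/
def Rigid (ar : S → S → Prop) (d : S → ℕ)
    (f : ∀ i j : S, (Fin (d i) → ℚ) →ₗ[ℚ] (Fin (d j) → ℚ)) : Prop :=
  ∀ E : ∀ i j : S, (Fin (d i) → ℚ) →ₗ[ℚ] (Fin (d j) → ℚ),
    ∃ h : ∀ i, (Fin (d i) → ℚ) →ₗ[ℚ] (Fin (d i) → ℚ),
      ∀ i j, ar i j → E i j = (h j) ∘ₗ (f i j) - (f i j) ∘ₗ (h i)

/-- (Q7) bricks whose dimension vector is a root are rigid -/
def S_RigidOf : Prop := ∀ (p : S → ℕ) (M : Rep S), G.Fr p → Brick G p M →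
  G.qf (fun i => (M.d i : ℤ)) = 2 → Rigid (G.arr p) M.d M.f

/-- (Q9) a positive root becomes simple by rotating the orientation -/
inductive Reach : (S → ℕ) → (S → ℤ) → Prop
  | base (p : S → ℕ) (r : S) : Reach p (Pi.single r 1)
  | step (p : S → ℕ) (r : S) (p' : S → ℕ) (x : S → ℤ) : G.Rot p r p' → 0 ≤ x →
      0 ≤ G.sr r x → Reach p' (G.sr r x) → Reach p x

def S_Reach : Prop := G.PD → ∀ (p : S → ℕ) (x : S → ℤ), G.Fr p → 0 ≤ x → G.qf x = 2 → Reach G p x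

/-- (Q10) existence of bricks -/
def S_BrickEx : Prop := G.PD → ∀ (p : S → ℕ) (x : S → ℤ), G.Fr p → 0 ≤ x → G.qf x = 2 →
  ∃ M : Rep S, Brick G p M ∧ ∀ i, (M.d i : ℤ) = x i

open Classical in
/-- transport through the used letters at the positions strictly between `i` and `k` -/
noncomputable def Gph.tr (q : ℕ → S) (U : Set ℕ) (i : ℕ) (x : S → ℤ) : ℕ → (S → ℤ)
  | 0 => x
  | (k + 1) => if i < k ∧ k ∈ U then G.sr (q k) (Gph.tr q U i x k) else Gph.tr q U i x k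

open Classical in
/-- (Q11) the Walk Lemma, simply laced case -/
def SLWL : Prop := ∀ (q : ℕ → S) (U : Set ℕ) (n : ℕ) (Y : ℕ → S → ℤ),
  (∀ s t, G.adj s t = true → ∀ i j, i < j → j < n → q i = s → q j = s →
    ∃ k, i < k ∧ k < j ∧ q k = t) →
  Y 1 = Pi.single (q 0) 1 →
  (∀ k, 1 ≤ k → k < n → Y (k + 1) = if k ∈ U then G.sr (q k) (Y k) else Y k) →
  (∀ k, 1 ≤ k → k < n → k ∈ U → Y k ≠ Pi.single (q k) 1) →
  ∃ (v : ℕ → S → ℤ) (c : ℕ → ℤ), v 1 = Pi.single (q 0) 1 ∧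
    (∀ k, 1 ≤ k → k ≤ n → 0 ≤ v k ∧ v k ≤ Y k) ∧
    ∀ k, 1 ≤ k → k < n →
      (k ∉ U → v (k + 1) = Function.update (v k) (q k) 0) ∧
      (k ∈ U → 0 ≤ c k ∧ v (k + 1) = G.sr (q k) (v k - c k • Pi.single (q k) 1) ∧
        (c k ≠ 0 → ∃ i, 1 ≤ i ∧ i < k ∧ i ∈ U ∧
          G.tr q U i (Pi.single (q i) 1) k = Pi.single (q k) 1))

variable (S) in
/-- (Q8) two rigid representations on the same spaces are isomorphic -/
def S_Unique : Prop := ∀ (ar : S → S → Prop) (d : S → ℕ)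
    (f g : ∀ i j : S, (Fin (d i) → ℚ) →ₗ[ℚ] (Fin (d j) → ℚ)),
    Rigid ar d f → Rigid ar d g →
    ∃ e : ∀ i, (Fin (d i) → ℚ) →ₗ[ℚ] (Fin (d i) → ℚ), (∀ i, Function.Bijective (e i)) ∧
      ∀ i j, ar i j → (g i j) ∘ₗ (e i) = (e j) ∘ₗ (f i j)

end

end Pool.Agent.W236.Qv
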