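import Pool.Agent.Helper741.Tits
import Pool.Agent.W236.SC.QDefs

/-!
# Subword complexes in finite Coxeter groups: definitions and statements of the parts

Positions are natural numbers `0, 1, …, n-1`, the word is `q : ℕ → B` restricted to `[0,n)`, and a facet is
given by the set `U` of the USED positions (the complement of the facet).
-/

set_option autoImplicit false

namespace Pool.Agent.W236.SC

open Pool.Agent.Helper741

section form

variable {B : Type*} [Fintype B] [DecidableEq B] (M : CoxeterMatrix B)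

/-- the bilinear form `(e_i, e_j) = -2 cos (π / m_ij)`, `(e_i, e_i) = 2` -/
noncomputable def frm (x y : B → ℝ) : ℝ := ∑ i, x i * coroot M i y

/-- the occurrences of non-commuting letters alternate in `q 0, …, q (n-1)` -/
def AltM (n : ℕ) (q : ℕ → B) : Prop := ∀ s t, s ≠ t → M s t ≠ 2 →
  ∀ i j, i < j → j < n → q i = s → q j = s → ∃ k, i < k ∧ k < j ∧ q k = t

/-- the projecting walk, started with the vector `x` at time `a`: the letter `q k` with `k ∈ U` acts by its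
reflection, with `k ∉ U` by deleting the coordinate `q k`. -/
noncomputable def aw (q : ℕ → B) (U : Finset ℕ) (a : ℕ) (x : B → ℝ) : ℕ → (B → ℝ)
  | 0 => x
  | (k + 1) => if k < a then x else if k ∈ U then sg M (q k) (aw q U a x k)
      else aw q U a x k - (aw q U a x k (q k)) • ee (q k)

/-! ### unfolding -/

/-- index set of the unfolding -/
abbrev Idx (L : ℕ) : Type := (j : Fin L) → Fin (j.1 + 1)

/-- adjacency of the unfolding: `(s,a) ~ (t,b)` iff `s ≠ t` and `a, b` differ exactly in the coordinate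
`j = m_st - 2`, by one -/
noncomputable def unf (L : ℕ) : Qv.Gph (B × Idx L) := by
  classical
  exact
  { adj := fun a b => decide (a.1 ≠ b.1 ∧ ∃ j : Fin L, M a.1 b.1 = j.1 + 2 ∧
      ((a.2 j).1 + 1 = (b.2 j).1 ∨ (b.2 j).1 + 1 = (a.2 j).1) ∧ ∀ i, i ≠ j → a.2 i = b.2 i)
    symm := by
      intro a b
      simp only [decide_eq_decide]
      constructor
      · rintro ⟨h, j, hj, h1, h2⟩
        exact ⟨h.symm, j, by rw [M.symmetric]; exact hj, h1.symm, fun i hi => (h2 i hi).symm⟩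
      · rintro ⟨h, j, hj, h1, h2⟩
        exact ⟨h.symm, j, by rw [M.symmetric]; exact hj, h1.symm, fun i hi => (h2 i hi).symm⟩
    irr := by
      intro a
      simp }

/-- the weights of the unfolding -/
noncomputable def lam {L : ℕ} (a : Idx L) : ℝ :=
  ∏ j : Fin L, (Real.sin (((a j).1 + 1) * (Real.pi / (j.1 + 2))) / Real.sin (Real.pi / (j.1 + 2)))

/-- the weight identity -/
def S_LamAdj : Prop := ∀ (L : ℕ), (∀ i j, i ≠ j → 2 ≤ M i j ∧ M i j ≤ L + 1) →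
  (∀ a : Idx L, 0 < lam a) ∧ (lam (fun _ => 0 : Idx L) = 1) ∧
  ∀ (s t : B) (b : Idx L), s ≠ t →
    (∑ a : Idx L, if (unf M L).adj (s, a) (t, b) then lam a else 0) = 2 * cc M s t * lam b

/-- the unfolded form is positive definite -/
def S_UnfPD : Prop := ∀ (L : ℕ), (∀ i j, i ≠ j → 2 ≤ M i j ∧ M i j ≤ L + 1) →
  (∀ x : B → ℝ, x ≠ 0 → 0 < frm M x x) → (unf M L).PD

end form

section

variable {B : Type*} [Fintype B] [DecidableEq B] {M : CoxeterMatrix B}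
variable {W : Type*} [Group W] (cs : CoxeterSystem M W)

/-- roots -/
def IsRt (x : B → ℝ) : Prop := ∃ (w : W) (i : B), x = geo cs w (ee i)

/-- right weak order -/
def WLe (u v : W) : Prop := cs.length u + cs.length (u⁻¹ * v) = cs.length v

/-- product of the used letters before position `k` -/
noncomputable def pf (q : ℕ → B) (U : Finset ℕ) : ℕ → W
  | 0 => 1
  | (k + 1) => if k ∈ U then pf q U k * cs.simple (q k) else pf q U k

/-- root function -/
noncomputable def rt (q : ℕ → B) (U : Finset ℕ) (k : ℕ) : B → ℝ := geo cs (pf cs q U k) (ee (q k))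

/-- `U` is the complement of a facet of the subword complex of `q 0 … q (n-1)` and `ω` -/
structure IsFac (n : ℕ) (q : ℕ → B) (ω : W) (U : Finset ℕ) : Prop where
  sub : ∀ k ∈ U, k < n
  prod : pf cs q U n = ω
  card : U.card = cs.length ω

/-- `v` is a linear extension of the facet with used set `U` -/
def Pos (n : ℕ) (q : ℕ → B) (U : Finset ℕ) (v : W) : Prop :=
  ∀ k, k < n → k ∉ U → 0 ≤ geo cs v⁻¹ (rt cs q U k)

/-- facet and linear extension -/
structure IsK (n : ℕ) (q : ℕ → B) (ω v : W) (U : Finset ℕ) : Prop where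
  fac : IsFac cs n q ω U
  pos : Pos cs n q U v

/-- alternating products `s t s …` of length `k` -/
def alt (s t : B) : ℕ → W
  | 0 => 1
  | (k + 1) => alt s t k * cs.simple (if Even k then s else t)

/-! ### the Walk Lemma and its first consequences -/

/-- (WL) the Walk Lemma -/
def S_WL : Prop := ∀ (n : ℕ) (q : ℕ → B) (U : Set ℕ) (h : ℕ → W) (a b : ℕ) (γ : B → ℝ),
  AltM M n q → a < b → b ≤ n →
  (∀ k, a < k → k < b → k ∈ U → h (k + 1) = h k * cs.simple (q k)) →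
  (∀ k, a < k → k < b → k ∉ U → h (k + 1) = h k) →
  geo cs (h (a + 1))⁻¹ γ = ee (q a) →
  (∀ k, a < k → k < b → k ∈ U → geo cs (h k)⁻¹ γ ≠ ee (q k)) →
  ∃ c : ℕ → ℝ, (∀ k, 0 ≤ c k) ∧
    (∀ k, a < k → k ≤ b →
      0 ≤ geo cs (h k)⁻¹ (γ - ∑ j ∈ Finset.Ioo a k, c j • geo cs (h j) (ee (q j))) ∧
      geo cs (h k)⁻¹ (γ - ∑ j ∈ Finset.Ioo a k, c j • geo cs (h j) (ee (q j))) ≤
        geo cs (h k)⁻¹ γ) ∧
    (∀ k, a < k → k < b → k ∉ U →
      c k = (geo cs (h k)⁻¹ (γ - ∑ j ∈ Finset.Ioo a k, c j • geo cs (h j) (ee (q j)))) (q k)) ∧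
    (∀ k, a < k → k < b → k ∈ U → c k ≠ 0 →
      ∃ i, a < i ∧ i < k ∧ i ∈ U ∧ geo cs (h k) (ee (q k)) = - geo cs (h i) (ee (q i)))

/-- (UNF) the Walk Lemma from the simply laced case by unfolding -/
def S_UNF : Prop :=
  (∀ i j, M i j ≠ 0) → (∀ x : B → ℝ, x ≠ 0 → 0 < frm M x x) →
  S_LamAdj M → (∀ L, Qv.SLWL (unf M L)) → S_WL cs

/-- (EINV) transport of the Euler form -/
def S_EINV : Prop := ∀ (n : ℕ) (q : ℕ → B) (U : Set ℕ) (h : ℕ → W) (a b : ℕ) (x y : B → ℝ),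
  AltM M n q → a < b → b < n →
  (∀ k, a < k → k < b → k ∈ U → h (k + 1) = h k * cs.simple (q k)) →
  (∀ k, a < k → k < b → k ∉ U → h (k + 1) = h k) →
  geo cs (h (a + 1))⁻¹ x = ee (q a) → geo cs (h b)⁻¹ x = ee (q b) →
  (∀ k, a < k → k < b → k ∉ U →
    (geo cs (h k)⁻¹ x) (q k) = 0 ∧ (geo cs (h k)⁻¹ y) (q k) = 0) →
  frm M x y - (geo cs (h (a + 1))⁻¹ y) (q a) = (geo cs (h b)⁻¹ y) (q b)

/-- (ALT) impossible pattern -/
def S_ALT : Prop := ∀ (n : ℕ) (q : ℕ → B) (N : Set ℕ) (h : ℕ → W) (x y : B) (t0 k1 k2 M0 : ℕ),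
  AltM M n q → x ≠ y → M x y ≠ 2 → t0 < k1 → k1 < k2 → k2 < M0 → M0 < n →
  (∀ k, t0 < k → k < M0 → k ∈ N → h (k + 1) = h k * cs.simple (q k)) →
  (∀ k, t0 < k → k < M0 → k ∉ N → h (k + 1) = h k) →
  geo cs (h (t0 + 1))⁻¹ (ee y) = ee (q t0) → geo cs (h M0)⁻¹ (ee y) = ee (q M0) →
  geo cs (h k1)⁻¹ (ee x) = ee (q k1) → geo cs (h k2)⁻¹ (ee x) = ee (q k2) →
  k1 ∉ N → k2 ∉ N →
  (∀ k, t0 < k → k < M0 → k ∉ N → geo cs (h k) (ee (q k)) = ee x ∨
    (0 ≤ geo cs (h k) (ee (q k)) ∧ ∃ i, i ≠ x ∧ i ≠ y ∧ geo cs (h k) (ee (q k)) i ≠ 0)) →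
  (∀ k, k1 < k → k < k2 → k ∉ N → geo cs (h k) (ee (q k)) ≠ ee x) →
  (∀ k, t0 < k → k < M0 → k ∈ N → ∃ i, i ≠ x ∧ i ≠ y ∧ geo cs (h k) (ee (q k)) i ≠ 0) →
  (∀ i l, t0 < i → i < l → l < M0 → i ∈ N → l ∈ N →
    geo cs (h l) (ee (q l)) = - geo cs (h i) (ee (q i)) →
    i < k1 ∧ k2 < l ∧ 0 < frm M (geo cs (h i) (ee (q i))) (ee x)) →
  False

/-! ### facets -/

/-- (ROOTS) roots of the used and of the skipped positions -/
def S_ROOTS : Prop := ∀ (n : ℕ) (q : ℕ → B) (ω : W) (U : Finset ℕ), IsFac cs n q ω U →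
  (∀ k ∈ U, 0 ≤ rt cs q U k ∧ geo cs ω⁻¹ (rt cs q U k) ≤ 0) ∧
  (∀ β, IsRt cs β → 0 ≤ β → geo cs ω⁻¹ β ≤ 0 → ∃ k ∈ U, rt cs q U k = β) ∧
  (∀ k ∈ U, ∀ l ∈ U, rt cs q U k = rt cs q U l → k = l) ∧
  (∀ k, k ≤ n → ∀ β, IsRt cs β → 0 ≤ β →
    (geo cs (pf cs q U k)⁻¹ β ≤ 0 ↔ ∃ j ∈ U, j < k ∧ rt cs q U j = β)) ∧
  (∀ k, k < n → k ∉ U → rt cs q U k ≤ 0 → ∃ j ∈ U, j < k ∧ rt cs q U j = - rt cs q U k) ∧
  (∀ j ∈ U, ∀ k, j < k → k < n → rt cs q U k ≠ rt cs q U j)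

/-- (FLIP) flips -/
def S_FLIP : Prop := ∀ (n : ℕ) (q : ℕ → B) (ω : W) (U : Finset ℕ) (g g' : ℕ), IsFac cs n q ω U →
  g < g' → g ∉ U → g' ∈ U → rt cs q U g = rt cs q U g' →
  IsFac cs n q ω (insert g (U.erase g')) ∧
  (∀ k, k ≤ g → rt cs q (insert g (U.erase g')) k = rt cs q U k) ∧
  (∀ k, g' < k → rt cs q (insert g (U.erase g')) k = rt cs q U k) ∧
  (∀ k, g < k → k ≤ g' → rt cs q (insert g (U.erase g')) k =
    rt cs q U k - frm M (rt cs q U g) (rt cs q U k) • rt cs q U g) ∧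
  (∀ k, k ≤ g → pf cs q (insert g (U.erase g')) k = pf cs q U k) ∧
  (∀ k, g' < k → pf cs q (insert g (U.erase g')) k = pf cs q U k) ∧
  (∀ k, g < k → k ≤ g' → ∀ x, geo cs (pf cs q (insert g (U.erase g')) k)⁻¹ x =
    geo cs (pf cs q U k)⁻¹ (x - frm M (rt cs q U g) x • rt cs q U g))

/-- (FLIPR) flips in the other direction -/
def S_FLIPR : Prop := ∀ (n : ℕ) (q : ℕ → B) (ω : W) (U : Finset ℕ) (g g' : ℕ), IsFac cs n q ω U →
  g < g' → g' < n → g ∈ U → g' ∉ U → rt cs q U g' = - rt cs q U g →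
  IsFac cs n q ω (insert g' (U.erase g)) ∧
  (∀ k, k ≤ g → rt cs q (insert g' (U.erase g)) k = rt cs q U k) ∧
  (∀ k, g' < k → rt cs q (insert g' (U.erase g)) k = rt cs q U k) ∧
  (∀ k, g < k → k ≤ g' → rt cs q (insert g' (U.erase g)) k =
    rt cs q U k - frm M (rt cs q U g) (rt cs q U k) • rt cs q U g)

/-- (FLIPC) converse: two facets differing by an exchange -/
def S_FLIPC : Prop := ∀ (n : ℕ) (q : ℕ → B) (ω : W) (U : Finset ℕ) (g g' : ℕ), IsFac cs n q ω U →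
  IsFac cs n q ω (insert g (U.erase g')) → g < g' → g ∉ U → g' ∈ U → rt cs q U g = rt cs q U g'

/-- (K0) the case `v = 1` -/
def S_K0 : Prop := ∀ (n : ℕ) (q : ℕ → B) (ω : W), (∃ U, IsFac cs n q ω U) → ∃! U, IsK cs n q ω 1 U

/-- (CROSS) crossing a wall -/
def S_CROSS : Prop := ∀ (n : ℕ) (q : ℕ → B) (ω v : W) (s : B) (U : Finset ℕ),
  cs.length v < cs.length (v * cs.simple s) →
  (IsK cs n q ω v U → (∀ k, k < n → k ∉ U → rt cs q U k ≠ geo cs v (ee s)) →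
    IsK cs n q ω (v * cs.simple s) U) ∧
  (IsK cs n q ω v U → ∀ g, g < n → g ∉ U → rt cs q U g = geo cs v (ee s) →
    (∀ k, k < g → k ∉ U → rt cs q U k ≠ geo cs v (ee s)) →
    geo cs ω⁻¹ (geo cs v (ee s)) ≤ 0 →
    ∃ g', g < g' ∧ g' < n ∧ g' ∈ U ∧ rt cs q U g' = geo cs v (ee s) ∧
      IsK cs n q ω (v * cs.simple s) (insert g (U.erase g'))) ∧
  (IsK cs n q ω (v * cs.simple s) U → (∀ k, k < n → k ∉ U → rt cs q U k ≠ - geo cs v (ee s)) →
    IsK cs n q ω v U) ∧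
  (IsK cs n q ω (v * cs.simple s) U → ∀ g', g' < n → g' ∉ U → rt cs q U g' = - geo cs v (ee s) →
    (∀ k, g' < k → k < n → k ∉ U → rt cs q U k ≠ - geo cs v (ee s)) →
    ∃ g, g < g' ∧ g ∈ U ∧ rt cs q U g = geo cs v (ee s) ∧
      IsK cs n q ω v (insert g' (U.erase g)))

/-- (KEX) every element of `[1, ω]` has a facet -/
def S_KEX : Prop := ∀ (n : ℕ) (q : ℕ → B) (ω v : W), (∃ U, IsFac cs n q ω U) → WLe cs v ω →
  ∃ U, IsK cs n q ω v U

/-- (KUN) uniqueness, for every `v` in `W` -/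
def S_KUN : Prop := ∀ (n : ℕ) (q : ℕ → B) (ω v : W) (U U' : Finset ℕ),
  IsK cs n q ω v U → IsK cs n q ω v U' → U = U'

/-! ### weak order -/

/-- (WEAK) -/
def S_WEAK : Prop :=
  (∀ u v, WLe cs u v ↔ ∀ β, IsRt cs β → 0 ≤ β → geo cs u⁻¹ β ≤ 0 → geo cs v⁻¹ β ≤ 0) ∧
  (∀ u, WLe cs u u) ∧ (∀ u v w, WLe cs u v → WLe cs v w → WLe cs u w) ∧
  (∀ u v, WLe cs u v → WLe cs v u → u = v) ∧
  (∀ u v, WLe cs u v → u ≠ v → ∃ s, cs.length u < cs.length (u * cs.simple s) ∧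
    WLe cs (u * cs.simple s) v) ∧
  (∀ u v, WLe cs u v → u ≠ v → ∃ s, cs.length (v * cs.simple s) < cs.length v ∧
    WLe cs u (v * cs.simple s)) ∧
  (∀ u v s, cs.length u < cs.length (u * cs.simple s) → WLe cs u v →
    (WLe cs (u * cs.simple s) v ↔ geo cs v⁻¹ (geo cs u (ee s)) ≤ 0))

/-- (POLY) polygons of the weak order -/
def S_POLY : Prop :=
  (∀ (b : W) (s t : B), s ≠ t → M s t ≠ 0 → cs.length b < cs.length (b * cs.simple s) →
    cs.length b < cs.length (b * cs.simple t) →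
    (∀ k, k ≤ M s t → cs.length (b * alt cs s t k) = cs.length b + k) ∧
    (∀ j k, j ≤ k → k ≤ M s t → WLe cs (b * alt cs s t j) (b * alt cs s t k)) ∧
    alt cs s t (M s t) = alt cs t s (M s t) ∧
    (∀ u, WLe cs (b * cs.simple s) u → WLe cs (b * cs.simple t) u →
      WLe cs (b * alt cs s t (M s t)) u)) ∧
  (∀ (z : W) (s t : B), s ≠ t → M s t ≠ 0 → cs.length (z * cs.simple s) < cs.length z →
    cs.length (z * cs.simple t) < cs.length z →
    ∃ b, cs.length b < cs.length (b * cs.simple s) ∧ cs.length b < cs.length (b * cs.simple t) ∧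
      z = b * alt cs s t (M s t) ∧
      ∀ u, WLe cs u (z * cs.simple s) → WLe cs u (z * cs.simple t) → WLe cs u b)

/-! ### polygons and facets -/

/-- the root at position `k` lies in the plane `b ⟨e_s, e_t⟩` -/
def PsiAt (b : W) (s t : B) (q : ℕ → B) (U : Finset ℕ) (k : ℕ) : Prop :=
  ∀ i, i ≠ s → i ≠ t → geo cs b⁻¹ (rt cs q U k) i = 0

/-- two facets have the same positions in the plane and the same status at all other positions -/
def Same (n : ℕ) (b : W) (s t : B) (q : ℕ → B) (U U' : Finset ℕ) : Prop :=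
  ∀ k, k < n → (PsiAt cs b s t q U k ↔ PsiAt cs b s t q U' k) ∧
    (¬ PsiAt cs b s t q U k → (k ∈ U ↔ k ∈ U'))

/-- (COMMON) along a polygon below `ω` the pattern outside the plane is constant -/
def S_COMMON : Prop := ∀ (n : ℕ) (q : ℕ → B) (ω b : W) (s t : B), s ≠ t → M s t ≠ 0 →
  cs.length b < cs.length (b * cs.simple s) → cs.length b < cs.length (b * cs.simple t) →
  WLe cs (b * alt cs s t (M s t)) ω →
  ∀ k, k ≤ M s t → ∀ U U', IsK cs n q ω b U → IsK cs n q ω (b * alt cs s t k) U' →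
    Same cs n b s t q U U'

/-- decomposition `b⁻¹ * pf k = d k * h k` with `d k` in the dihedral group `⟨s, t⟩` and `h k` minimal in
its coset -/
structure Dih (n : ℕ) (b : W) (s t : B) (q : ℕ → B) (U : Finset ℕ) (d h : ℕ → W) : Prop where
  d0 : d 0 = 1
  h0 : h 0 = b⁻¹
  dec : ∀ k, k ≤ n → b⁻¹ * pf cs q U k = d k * h k
  dmem : ∀ k, k ≤ n → d k ∈ Subgroup.closure {cs.simple s, cs.simple t}
  hs : ∀ k, k ≤ n → 0 ≤ geo cs (h k)⁻¹ (ee s)
  ht : ∀ k, k ≤ n → 0 ≤ geo cs (h k)⁻¹ (ee t)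
  psi : ∀ k, k < n → (PsiAt cs b s t q U k ↔
    geo cs (h k) (ee (q k)) = ee s ∨ geo cs (h k) (ee (q k)) = ee t)
  psiH : ∀ k, k < n → PsiAt cs b s t q U k → h (k + 1) = h k
  psiD : ∀ k, k < n → ∀ z, z = s ∨ z = t → geo cs (h k) (ee (q k)) = ee z →
    (k ∈ U → d (k + 1) = d k * cs.simple z) ∧ (k ∉ U → d (k + 1) = d k)
  nonD : ∀ k, k < n → ¬ PsiAt cs b s t q U k → d (k + 1) = d k
  nonU : ∀ k, k < n → ¬ PsiAt cs b s t q U k → k ∈ U → h (k + 1) = h k * cs.simple (q k)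
  nonS : ∀ k, k < n → ¬ PsiAt cs b s t q U k → k ∉ U → h (k + 1) = h k

/-- (DIH) existence of the decomposition; two facets with the same pattern outside the plane have the
same `h` -/
def S_DIH : Prop := ∀ (n : ℕ) (q : ℕ → B) (ω b : W) (s t : B), s ≠ t → M s t ≠ 0 →
  cs.length b < cs.length (b * cs.simple s) → cs.length b < cs.length (b * cs.simple t) →
  ∀ U, IsFac cs n q ω U → ∃ d h, Dih cs n b s t q U d h ∧
    ∀ U', IsFac cs n q ω U' → Same cs n b s t q U U' → ∃ d', Dih cs n b s t q U' d' h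

/-- (ALT2) impossible pattern, for two facets with the same pattern outside the plane -/
def S_ALT2 : Prop := ∀ (n : ℕ) (q : ℕ → B) (ω b : W) (x y : B) (I0 I1 : Finset ℕ)
    (t0 k1 k2 M0 : ℕ) (d0 d1 h : ℕ → W),
  AltM M n q → x ≠ y → M x y ≠ 2 → M x y ≠ 0 →
  cs.length b < cs.length (b * cs.simple x) → cs.length b < cs.length (b * cs.simple y) →
  IsFac cs n q ω I0 → IsFac cs n q ω I1 → Same cs n b x y q I0 I1 →
  Dih cs n b x y q I0 d0 h → Dih cs n b x y q I1 d1 h →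
  t0 < k1 → k1 < k2 → k2 < M0 → M0 < n →
  geo cs (h t0) (ee (q t0)) = ee y → geo cs (h M0) (ee (q M0)) = ee y →
  geo cs (h k1) (ee (q k1)) = ee x → geo cs (h k2) (ee (q k2)) = ee x →
  (∀ k, t0 < k → k < M0 → PsiAt cs b x y q I0 k → geo cs (h k) (ee (q k)) = ee x) →
  (∀ k, k1 < k → k < k2 → ¬ PsiAt cs b x y q I0 k) →
  (∀ k, t0 < k → k < M0 → ¬ PsiAt cs b x y q I0 k → k ∉ I0 → 0 ≤ geo cs (h k) (ee (q k))) →
  (∀ k, t0 < k → k < M0 → PsiAt cs b x y q I0 k → k ∈ I0 → k2 ≤ k ∧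
    ∀ k', t0 < k' → k' < M0 → PsiAt cs b x y q I0 k' → k' ∈ I0 → k' = k) →
  (∀ k, t0 < k → k < M0 → PsiAt cs b x y q I1 k → k ∈ I1 → k = k1) →
  False

/-- (SIMP) the plane roots in the root configuration at the bottom and at the top of a polygon -/
def S_SIMP : Prop := ∀ (n : ℕ) (q : ℕ → B) (ω b : W) (s t : B) (I0 I1 : Finset ℕ),
  AltM M n q → s ≠ t → M s t ≠ 0 →
  cs.length b < cs.length (b * cs.simple s) → cs.length b < cs.length (b * cs.simple t) →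
  WLe cs (b * alt cs s t (M s t)) ω →
  IsK cs n q ω b I0 → IsK cs n q ω (b * alt cs s t (M s t)) I1 → Same cs n b s t q I0 I1 →
  (∀ k, k < n → k ∉ I0 → PsiAt cs b s t q I0 k →
    rt cs q I0 k = geo cs b (ee s) ∨ rt cs q I0 k = geo cs b (ee t)) ∧
  (∀ k, k < n → k ∉ I1 → PsiAt cs b s t q I1 k →
    rt cs q I1 k = - geo cs b (ee s) ∨ rt cs q I1 k = - geo cs b (ee t))

/-- (PF1) a contracted bottom edge of a polygon -/
def S_PF1 : Prop := ∀ (n : ℕ) (q : ℕ → B) (ω b : W) (s t : B) (U U' : Finset ℕ),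
  AltM M n q → s ≠ t → M s t ≠ 0 →
  cs.length b < cs.length (b * cs.simple s) → cs.length b < cs.length (b * cs.simple t) →
  WLe cs (b * alt cs s t (M s t)) ω →
  IsK cs n q ω b U → IsK cs n q ω (b * cs.simple s) U → IsK cs n q ω (b * cs.simple t) U' →
  ∀ k, 1 ≤ k → k ≤ M s t → IsK cs n q ω (b * alt cs t s k) U'

/-- (PF2) a contracted top edge of a polygon -/
def S_PF2 : Prop := ∀ (n : ℕ) (q : ℕ → B) (ω b : W) (s t : B) (U U' : Finset ℕ),
  AltM M n q → s ≠ t → M s t ≠ 0 →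
  cs.length b < cs.length (b * cs.simple s) → cs.length b < cs.length (b * cs.simple t) →
  WLe cs (b * alt cs s t (M s t)) ω →
  IsK cs n q ω (b * alt cs s t (M s t)) U → IsK cs n q ω (b * alt cs s t (M s t - 1)) U →
  IsK cs n q ω (b * alt cs t s (M s t - 1)) U' →
  ∀ k, k ≤ M s t - 1 → IsK cs n q ω (b * alt cs t s k) U'

/-- an edge of the Hasse diagram of `[1, ω]` inside a class -/
def CE (n : ℕ) (q : ℕ → B) (ω : W) (U : Finset ℕ) (a b : W) : Prop :=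
  WLe cs b ω ∧ IsK cs n q ω a U ∧ IsK cs n q ω b U ∧
    ∃ s, b = a * cs.simple s ∧ cs.length a < cs.length b

/-- (CONN) the classes are connected -/
def S_CONN : Prop := ∀ (n : ℕ) (q : ℕ → B) (ω : W) (U : Finset ℕ) (x y : W),
  WLe cs x ω → WLe cs y ω → IsK cs n q ω x U → IsK cs n q ω y U →
  Relation.EqvGen (CE cs n q ω U) x y

/-- join in `[1, ω]` -/
def IsJn (ω x y j : W) : Prop := WLe cs j ω ∧ WLe cs x j ∧ WLe cs y j ∧
  ∀ u, WLe cs u ω → WLe cs x u → WLe cs y u → WLe cs j u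

/-- meet in `[1, ω]` -/
def IsMt (ω x y m : W) : Prop := WLe cs m ω ∧ WLe cs m x ∧ WLe cs m y ∧
  ∀ u, WLe cs u ω → WLe cs u x → WLe cs u y → WLe cs u m

/-- (LC) the interval is a lattice and equality of facets is a lattice congruence -/
def S_LC : Prop := ∀ (n : ℕ) (q : ℕ → B) (ω : W), AltM M n q → (∃ U, IsFac cs n q ω U) →
  (∀ x y, WLe cs x ω → WLe cs y ω → ∃ j, IsJn cs ω x y j) ∧
  (∀ x y, WLe cs x ω → WLe cs y ω → ∃ m, IsMt cs ω x y m) ∧
  (∀ x y z a b U, WLe cs x ω → WLe cs y ω → WLe cs z ω → IsK cs n q ω x U → IsK cs n q ω y U →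
    IsJn cs ω x z a → IsJn cs ω y z b → ∃ U', IsK cs n q ω a U' ∧ IsK cs n q ω b U') ∧
  (∀ x y z a b U, WLe cs x ω → WLe cs y ω → WLe cs z ω → IsK cs n q ω x U → IsK cs n q ω y U →
    IsMt cs ω x z a → IsMt cs ω y z b → ∃ U', IsK cs n q ω a U' ∧ IsK cs n q ω b U')

/-- strongly acyclic facets -/
def SA (n : ℕ) (q : ℕ → B) (ω : W) (U : Finset ℕ) : Prop := ∃ x, WLe cs x ω ∧ IsK cs n q ω x U

/-- order on the classes (indexed by the strongly acyclic facets) -/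
def Qle (n : ℕ) (q : ℕ → B) (ω : W) (U U' : Finset ℕ) : Prop :=
  ∃ x y j, WLe cs x ω ∧ WLe cs y ω ∧ IsK cs n q ω x U ∧ IsK cs n q ω y U' ∧
    IsJn cs ω x y j ∧ IsK cs n q ω j U'

/-- (HE) the Hasse diagram of the quotient: edges between classes -/
def S_HE : Prop := ∀ (n : ℕ) (q : ℕ → B) (ω : W), AltM M n q →
  ∀ U U', SA cs n q ω U → SA cs n q ω U' →
  ((Qle cs n q ω U U' ∧ U ≠ U' ∧
      ∀ U'', SA cs n q ω U'' → Qle cs n q ω U U'' → Qle cs n q ω U'' U' → U'' = U ∨ U'' = U') ↔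
    (U ≠ U' ∧ ∃ (z : W) (t : B), cs.length z < cs.length (z * cs.simple t) ∧
      WLe cs (z * cs.simple t) ω ∧ IsK cs n q ω z U ∧ IsK cs n q ω (z * cs.simple t) U'))

/-! ### dead roots (for the extremal flip graph) -/

/-- (AW1) the projecting walk from a used position of a facet is nonnegative -/
def S_AW1 : Prop := ∀ (n : ℕ) (q : ℕ → B) (ω : W) (U : Finset ℕ) (p : ℕ), AltM M n q →
  IsFac cs n q ω U → p ∈ U → ∀ k, p < k → k ≤ n → 0 ≤ aw M q U (p + 1) (ee (q p)) k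

/-- (SEG) -/
def S_SEG : Prop := ∀ (n : ℕ) (q : ℕ → B) (ω : W) (U : Finset ℕ) (a b : ℕ) (γ : B → ℝ)
    (ζ : (B → ℝ) →ₗ[ℝ] ℝ), AltM M n q → IsFac cs n q ω U → a < b → b < n →
  geo cs (pf cs q U (a + 1))⁻¹ γ = ee (q a) → rt cs q U b = γ →
  (∀ k, a < k → k < b → k ∈ U → rt cs q U k ≠ γ) →
  ζ γ = 0 → (∀ k, a < k → k < b → k ∉ U → 0 < ζ (rt cs q U k)) →
  ∀ k, a < k → k < b → k ∉ U → (geo cs (pf cs q U k)⁻¹ γ) (q k) = 0

/-- the root `β` is used and dead in `U` -/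
def Dead (n : ℕ) (q : ℕ → B) (U : Finset ℕ) (β : B → ℝ) : Prop :=
  ∃ p ∈ U, rt cs q U p = β ∧ aw M q U (p + 1) (ee (q p)) n = 0

/-- (DB) base -/
def S_DB : Prop := ∀ (n : ℕ) (q : ℕ → B) (ω v : W) (s : B) (U : Finset ℕ), AltM M n q →
  cs.length v < cs.length (v * cs.simple s) → IsK cs n q ω (v * cs.simple s) U →
  (∃ g', g' < n ∧ g' ∉ U ∧ rt cs q U g' = - geo cs v (ee s)) → Dead cs n q U (geo cs v (ee s))

/-- (DP) propagation through a flip -/
def S_DP : Prop := ∀ (n : ℕ) (q : ℕ → B) (ω z : W) (s : B) (U : Finset ℕ) (g g' : ℕ)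
    (β : B → ℝ), AltM M n q → cs.length z < cs.length (z * cs.simple s) →
  IsK cs n q ω z U → IsK cs n q ω (z * cs.simple s) (insert g (U.erase g')) →
  g < g' → g ∉ U → g' ∈ U → rt cs q U g = geo cs z (ee s) → rt cs q U g' = geo cs z (ee s) →
  β ≠ geo cs z (ee s) → Dead cs n q U β → Dead cs n q (insert g (U.erase g')) β

/-- (CI) the root of an uncontracted edge below `z` is an inversion of all linear extensions of the
facet of `z` -/
def S_CI : Prop := ∀ (n : ℕ) (q : ℕ → B) (ω y z v : W) (s : B) (U U' Uz : Finset ℕ),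
  AltM M n q → cs.length y < cs.length (y * cs.simple s) → WLe cs (y * cs.simple s) z →
  WLe cs z ω → IsK cs n q ω y U → IsK cs n q ω (y * cs.simple s) U' → U ≠ U' →
  IsK cs n q ω z Uz → Pos cs n q Uz v → geo cs v⁻¹ (geo cs y (ee s)) ≤ 0

/-- (GH) adjacent chambers of two classes give an edge inside `[1, ω]` -/
def S_GH : Prop := ∀ (n : ℕ) (q : ℕ → B) (ω v : W) (s : B) (U U' : Finset ℕ), AltM M n q →
  cs.length v < cs.length (v * cs.simple s) → IsK cs n q ω v U → IsK cs n q ω (v * cs.simple s) U' →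
  U ≠ U' → (∃ x, WLe cs x ω ∧ IsK cs n q ω x U) → (∃ x, WLe cs x ω ∧ IsK cs n q ω x U') →
  ∃ (z : W) (t : B), cs.length z < cs.length (z * cs.simple t) ∧ WLe cs (z * cs.simple t) ω ∧
    IsK cs n q ω z U ∧ IsK cs n q ω (z * cs.simple t) U'

/-! ### geometry of extreme rays; sorting words -/

/-- the ray of `β` is extreme in the cone generated by the root configuration -/
def Extr (n : ℕ) (q : ℕ → B) (U : Finset ℕ) (β : B → ℝ) : Prop :=
  ∀ c c' : ℕ → ℝ, (∀ k, 0 ≤ c k) → (∀ k, 0 ≤ c' k) →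
    (∑ k ∈ (Finset.range n).filter (fun k => k ∉ U), c k • rt cs q U k) +
      (∑ k ∈ (Finset.range n).filter (fun k => k ∉ U), c' k • rt cs q U k) = β →
    ∃ a : ℝ, 0 ≤ a ∧
      (∑ k ∈ (Finset.range n).filter (fun k => k ∉ U), c k • rt cs q U k) = a • β

/-- (WALL) an extreme ray of an acyclic facet is a wall of some linear extension -/
def S_WALL : Prop := ∀ (n : ℕ) (q : ℕ → B) (U : Finset ℕ) (g : ℕ), g < n → g ∉ U →
  (∃ π : W, Pos cs n q U π) → Extr cs n q U (rt cs q U g) →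
  ∃ (v : W) (s : B), Pos cs n q U v ∧ geo cs v (ee s) = rt cs q U g

/-- (EXT) conversely, a wall of a linear extension spans an extreme ray -/
def S_EXT : Prop := ∀ (n : ℕ) (q : ℕ → B) (U : Finset ℕ) (v : W) (s : B), Pos cs n q U v →
  Extr cs n q U (geo cs v (ee s))

/-- extremal increasing flip from `U` to `U'` (in terms of used sets) -/
def EArc (n : ℕ) (q : ℕ → B) (U U' : Finset ℕ) : Prop :=
  ∃ g g', g < g' ∧ g' < n ∧ g ∉ U ∧ g' ∈ U ∧ U' = insert g (U.erase g') ∧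
    Extr cs n q U (rt cs q U g)

/-- (GRAPH) edges between classes are the extremal increasing flips of strongly acyclic facets -/
def S_GRAPH : Prop := ∀ (n : ℕ) (q : ℕ → B) (ω : W), AltM M n q →
  ∀ U U', SA cs n q ω U → SA cs n q ω U' →
  ((U ≠ U' ∧ ∃ (z : W) (t : B), cs.length z < cs.length (z * cs.simple t) ∧
      WLe cs (z * cs.simple t) ω ∧ IsK cs n q ω z U ∧ IsK cs n q ω (z * cs.simple t) U') ↔
    EArc cs n q U U')

/-- (SORT) for a sorting word the linear extensions of the facets are below `ω` -/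
def S_SORT : Prop := ∀ (n : ℕ) (q : ℕ → B), (∀ w : W, ∃ U, IsFac cs n q w U) →
  ∀ (ω v : W) (U : Finset ℕ), IsK cs n q ω v U → WLe cs v ω

/-- (SUBW) a word containing a reduced word of the longest element contains one of every element -/
def S_SUBW : Prop := ∀ (n : ℕ) (q : ℕ → B) (w₀ : W), (∀ w, cs.length w ≤ cs.length w₀) →
  (∃ U, IsFac cs n q w₀ U) → ∀ w : W, ∃ U, IsFac cs n q w U

end

end Pool.Agent.W236.SC
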