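import Pool.Agent.W236.SC.Bridge

/-!
# From the internal statements to the final statements
-/

set_option autoImplicit false

namespace Pool.Agent.W236.SCF

open Pool.Agent.Helper741 Pool.Agent.W236.SC

universe u v

variable {B : Type u} [Fintype B] [DecidableEq B] {M : CoxeterMatrix B}
variable {W : Type v} [Group W] (cs : CoxeterSystem M W)

/-- `Equ` in terms of used sets -/
lemma equ_iff (b0 : B) (Q : List B) (ω x y : W) :
    Equ cs Q ω x y ↔ ∃ U, IsK cs Q.length (qq b0 Q) ω x U ∧ IsK cs Q.length (qq b0 Q) ω y U := by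
  constructor
  · rintro ⟨I, h1, h2, h3⟩
    exact ⟨us Q I, (isK_us cs b0 Q ω x I).2 ⟨h1, h2⟩, (isK_us cs b0 Q ω y I).2 ⟨h1, h3⟩⟩
  · rintro ⟨U, h1, h2⟩
    obtain ⟨I, rfl⟩ := exists_us cs b0 Q ω U h1.fac
    exact ⟨I, ((isK_us cs b0 Q ω x I).1 h1).1, ((isK_us cs b0 Q ω x I).1 h1).2,
      ((isK_us cs b0 Q ω y I).1 h2).2⟩

theorem latCong_of (b0 : B) (hKEX : S_KEX cs) (hKUN : S_KUN cs) (hLC : S_LC cs)
    (Q : List B) (hQ : Alternating cs Q) (ω : W) (hne : ∃ I, IsFacet cs Q ω I) :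
    IsLatticeCongruence cs Q ω := by
  have hA := altM_us cs b0 Q hQ
  have hne' : ∃ U, IsFac cs Q.length (qq b0 Q) ω U := by
    obtain ⟨I, hI⟩ := hne
    exact ⟨us Q I, (isFac_us cs b0 Q ω I).2 hI⟩
  obtain ⟨h1, h2, h3, h4⟩ := hLC Q.length (qq b0 Q) ω hA hne'
  refine ⟨?_, h1, h2, ?_, ?_⟩
  · intro x hx
    obtain ⟨U, hU⟩ := hKEX Q.length (qq b0 Q) ω x hne' hx
    obtain ⟨I, rfl⟩ := exists_us cs b0 Q ω U hU.fac
    refine ⟨I, (isK_us cs b0 Q ω x I).1 hU, ?_⟩
    intro J hJ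
    exact us_injective Q (hKUN _ _ _ _ _ _ ((isK_us cs b0 Q ω x J).2 hJ) hU)
  · intro x y z a b hx hy hz hxy ha hb
    obtain ⟨U, hU1, hU2⟩ := (equ_iff cs b0 Q ω x y).1 hxy
    exact (equ_iff cs b0 Q ω a b).2 (h3 x y z a b U hx hy hz hU1 hU2 ha hb)
  · intro x y z a b hx hy hz hxy ha hb
    obtain ⟨U, hU1, hU2⟩ := (equ_iff cs b0 Q ω x y).1 hxy
    exact (equ_iff cs b0 Q ω a b).2 (h4 x y z a b U hx hy hz hU1 hU2 ha hb)

/-- strongly acyclic facets in terms of used sets -/
lemma sa_us (b0 : B) (Q : List B) (ω : W) (I : Finset (Fin Q.length)) :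
    SA cs Q.length (qq b0 Q) ω (us Q I) ↔ StronglyAcyclic cs Q ω I := by
  constructor
  · rintro ⟨x, hx, h⟩
    have := (isK_us cs b0 Q ω x I).1 h
    exact ⟨this.1, x, hx, this.2⟩
  · rintro ⟨h, x, hx, h2⟩
    exact ⟨x, hx, (isK_us cs b0 Q ω x I).2 ⟨h, h2⟩⟩

/-- the sum over the skipped positions -/
lemma sum_skip (b0 : B) (Q : List B) (I : Finset (Fin Q.length)) (c : ℕ → ℝ) :
    (∑ k ∈ (Finset.range Q.length).filter (fun k => k ∉ us Q I), c k • rt cs (qq b0 Q) (us Q I) k)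
      = ∑ k ∈ I, c k • root cs Q I k := by
  classical
  have : (Finset.range Q.length).filter (fun k => k ∉ us Q I) = I.map Fin.valEmbedding := by
    ext k
    simp only [Finset.mem_filter, Finset.mem_range, Finset.mem_map, Fin.valEmbedding_apply]
    constructor
    · rintro ⟨h1, h2⟩
      refine ⟨⟨k, h1⟩, ?_, rfl⟩
      by_contra hc
      exact h2 ((mem_us Q I k).2 ⟨h1, hc⟩)
    · rintro ⟨a, ha, rfl⟩
      refine ⟨a.2, ?_⟩
      rw [mem_us_fin]
      simpa using ha
  rw [this, Finset.sum_map]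
  apply Finset.sum_congr rfl
  intro k _
  simp only [Fin.valEmbedding_apply]
  rw [rt_us]

lemma root_ne_zero (Q : List B) (I : Finset (Fin Q.length)) (k : Fin Q.length) :
    root cs Q I k ≠ 0 := geo_ee_ne_zero cs _ _

/-- extreme rays -/
lemma extr_us (b0 : B) (Q : List B) (I : Finset (Fin Q.length)) (g : Fin Q.length) (hg : g ∈ I) :
    Extr cs Q.length (qq b0 Q) (us Q I) (root cs Q I g) ↔
      IsExtremeRay (Cone cs Q I) (root cs Q I g) := by
  classical
  constructor
  · intro h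
    refine ⟨⟨fun k => if k = g then 1 else 0, fun k => by dsimp only; split_ifs <;> norm_num, ?_⟩,
      root_ne_zero cs Q I g, ?_⟩
    · simp [Finset.sum_ite_eq', hg]
    · rintro x ⟨c, hc, rfl⟩ y ⟨c', hc', rfl⟩ ⟨a, ha, hsum⟩
      -- the key claim
      have key : ∀ (d d' : Fin Q.length → ℝ), (∀ k, 0 ≤ d k) → (∀ k, 0 ≤ d' k) →
          ∀ a : ℝ, 0 < a → (∑ k ∈ I, d k • root cs Q I k) + (∑ k ∈ I, d' k • root cs Q I k) =
            a • root cs Q I g → ∃ a : ℝ, 0 ≤ a ∧ (∑ k ∈ I, d k • root cs Q I k) = a • root cs Q I g := by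
        intro d d' hd hd' a ha hs
        have hext : ∀ (e : Fin Q.length → ℝ), (∑ k ∈ I, (fun n : ℕ => if hn : n < Q.length then a⁻¹ * e ⟨n, hn⟩ else 0) k • root cs Q I k) = a⁻¹ • ∑ k ∈ I, e k • root cs Q I k := by
          intro e
          rw [Finset.smul_sum]
          apply Finset.sum_congr rfl
          intro k _
          simp [smul_smul]
        obtain ⟨b, hb, hb2⟩ := h (fun n => if hn : n < Q.length then a⁻¹ * d ⟨n, hn⟩ else 0)
          (fun n => if hn : n < Q.length then a⁻¹ * d' ⟨n, hn⟩ else 0)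
          (by intro n; split_ifs; · exact mul_nonneg (inv_nonneg.2 ha.le) (hd _)
              · exact le_rfl)
          (by intro n; split_ifs; · exact mul_nonneg (inv_nonneg.2 ha.le) (hd' _)
              · exact le_rfl)
          (by
            rw [sum_skip, sum_skip, hext, hext, ← smul_add, hs, smul_smul,
              inv_mul_cancel₀ ha.ne', one_smul])
        rw [sum_skip, hext] at hb2
        refine ⟨a * b, mul_nonneg ha.le hb, ?_⟩
        rw [mul_smul, ← hb2, smul_smul, mul_inv_cancel₀ ha.ne', one_smul]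
      rcases ha.lt_or_eq with ha' | ha'
      · exact ⟨key c c' hc hc' a ha' hsum, key c' c hc' hc a ha' (by rw [add_comm]; exact hsum)⟩
      · -- a = 0 : add the root itself
        subst ha'
        rw [zero_smul] at hsum
        have h1 : (∑ k ∈ I, c k • root cs Q I k) +
            (∑ k ∈ I, (c' k + if k = g then 1 else 0) • root cs Q I k) = (1 : ℝ) • root cs Q I g := by
          have : (∑ k ∈ I, (c' k + if k = g then (1 : ℝ) else 0) • root cs Q I k) =
              (∑ k ∈ I, c' k • root cs Q I k) + root cs Q I g := by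
            simp only [add_smul, Finset.sum_add_distrib, ite_smul, one_smul, zero_smul,
              Finset.sum_ite_eq', hg, if_true]
          rw [this, ← add_assoc, hsum]; simp
        have h2 : (∑ k ∈ I, c' k • root cs Q I k) +
            (∑ k ∈ I, (c k + if k = g then 1 else 0) • root cs Q I k) = (1 : ℝ) • root cs Q I g := by
          have : (∑ k ∈ I, (c k + if k = g then (1 : ℝ) else 0) • root cs Q I k) =
              (∑ k ∈ I, c k • root cs Q I k) + root cs Q I g := by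
            simp only [add_smul, Finset.sum_add_distrib, ite_smul, one_smul, zero_smul,
              Finset.sum_ite_eq', hg, if_true]
          rw [this, ← add_assoc, add_comm (∑ k ∈ I, c' k • root cs Q I k), hsum]; simp
        exact ⟨key c _ hc (fun k => add_nonneg (hc' k) (by split_ifs <;> norm_num)) 1 one_pos h1,
          key c' _ hc' (fun k => add_nonneg (hc k) (by split_ifs <;> norm_num)) 1 one_pos h2⟩
  · rintro ⟨_, _, h⟩ c c' hc hc' hsum
    rw [sum_skip, sum_skip] at hsum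
    rw [sum_skip]
    exact (h _ ⟨fun k => c k, fun k => hc k, rfl⟩ _ ⟨fun k => c' k, fun k => hc' k, rfl⟩
      ⟨1, zero_le_one, by rw [one_smul]; exact hsum⟩).1

lemma arc_us (b0 : B) (Q : List B) (I J : Finset (Fin Q.length)) :
    EArc cs Q.length (qq b0 Q) (us Q I) (us Q J) ↔ Arc cs Q I J := by
  classical
  constructor
  · rintro ⟨g, g', hgg, hg', h1, h2, h3, h4⟩
    have hg : g < Q.length := by omega
    have hgI : (⟨g, hg⟩ : Fin Q.length) ∈ I := by
      by_contra hc; exact h1 ((mem_us Q I g).2 ⟨hg, hc⟩)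
    have hgI' : (⟨g', hg'⟩ : Fin Q.length) ∉ I := ((mem_us Q I g').1 h2).2
    have hJ : ∀ k : Fin Q.length, k ∉ J ↔ (k = ⟨g, hg⟩ ∨ (k ≠ ⟨g', hg'⟩ ∧ k ∉ I)) := by
      intro k
      rw [← mem_us_fin Q J k, h3, Finset.mem_insert, Finset.mem_erase, mem_us_fin]
      constructor
      · rintro (h | ⟨h, h'⟩)
        · exact Or.inl (Fin.ext h)
        · exact Or.inr ⟨fun hk => h (by rw [hk]), h'⟩
      · rintro (h | ⟨h, h'⟩)
        · exact Or.inl (by rw [h])
        · exact Or.inr ⟨fun hk => h (Fin.ext hk), h'⟩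
    refine ⟨⟨g, hg⟩, ⟨g', hg'⟩, hgI, ?_, ?_, by simpa using hgg, ?_⟩
    · by_contra hc
      rcases (hJ _).1 hc with h | ⟨h, _⟩
      · have : g' = g := by simpa using congrArg Fin.val h
        omega
      · exact h rfl
    · ext k
      simp only [Finset.mem_erase]
      have := hJ k
      constructor
      · rintro ⟨hk1, hk2⟩
        refine ⟨fun hk => hgI' (hk ▸ hk2), ?_⟩
        by_contra hc
        rcases this.1 hc with h | ⟨_, h⟩
        · exact hk1 h
        · exact h hk2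
      · rintro ⟨hk1, hk2⟩
        have hne : k ≠ ⟨g, hg⟩ := fun hk => (this.2 (Or.inl hk)) hk2
        refine ⟨hne, ?_⟩
        by_contra hc
        exact (this.2 (Or.inr ⟨hk1, hc⟩)) hk2
    · rw [← extr_us cs b0 Q I ⟨g, hg⟩ hgI, ← rt_us cs b0]
      exact h4
  · rintro ⟨i, j, hi, hj, hIJ, hij, hE⟩
    have hiJ : i ∉ J := by
      intro hc
      have : i ∈ J.erase j := Finset.mem_erase.2 ⟨hij.ne, hc⟩
      rw [← hIJ] at this
      simp at this
    have hjI : j ∉ I := by
      intro hc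
      have : j ∈ I.erase i := Finset.mem_erase.2 ⟨hij.ne', hc⟩
      rw [hIJ] at this
      simp at this
    refine ⟨i, j, hij, j.2, ?_, ?_, ?_, ?_⟩
    · rw [mem_us_fin]; simpa using hi
    · rw [mem_us_fin]; exact hjI
    · ext k
      rw [Finset.mem_insert, Finset.mem_erase]
      by_cases hk : k < Q.length
      · have hm := mem_us_fin Q J ⟨k, hk⟩
        have hm2 := mem_us_fin Q I ⟨k, hk⟩
        simp only at hm hm2
        rw [hm, hm2]
        have e1 : k = (i : ℕ) ↔ (⟨k, hk⟩ : Fin Q.length) = i := by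
          constructor
          · intro h; exact Fin.ext h
          · intro h; rw [← h]
        have e2 : k = (j : ℕ) ↔ (⟨k, hk⟩ : Fin Q.length) = j := by
          constructor
          · intro h; exact Fin.ext h
          · intro h; rw [← h]
        rw [e1, Ne, e2]
        generalize (⟨k, hk⟩ : Fin Q.length) = x
        have h5 : x ∈ I.erase i ↔ x ∈ J.erase j := by rw [hIJ]
        rw [Finset.mem_erase, Finset.mem_erase] at h5
        by_cases hxi : x = i
        · subst hxi; simp [hiJ]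
        · by_cases hxj : x = j
          · subst hxj; simp [hj, hxi]
          · simp only [hxi, hxj, not_false_eq_true, true_and, false_or, ne_eq] at h5 ⊢
            rw [h5]
      · constructor
        · intro h; exact absurd ((mem_us Q J k).1 h).1 hk
        · rintro (h | ⟨_, h⟩)
          · exact absurd (h ▸ i.2) hk
          · exact absurd ((mem_us Q I k).1 h).1 hk
    · rw [rt_us cs b0, extr_us cs b0 Q I i hi]
      exact hE

/-! ### the Hasse diagram -/

section hasse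

variable (Q : List B) (ω : W)

/-- the strongly acyclic facet of an element of `[1, ω]` -/
noncomputable def fac (hC : IsLatticeCongruence cs Q ω) (x : Ival cs ω) :
    {I // StronglyAcyclic cs Q ω I} :=
  ⟨(hC.classes x.1 x.2).choose, (hC.classes x.1 x.2).choose_spec.1.1, x.1, x.2,
    (hC.classes x.1 x.2).choose_spec.1.2⟩

lemma fac_spec (hC : IsLatticeCongruence cs Q ω) (x : Ival cs ω) :
    IsFacet cs Q ω (fac cs Q ω hC x).1 ∧ x.1 ∈ LinExt cs Q (fac cs Q ω hC x).1 :=
  (hC.classes x.1 x.2).choose_spec.1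

lemma fac_unique (hC : IsLatticeCongruence cs Q ω) (x : Ival cs ω) (I : Finset (Fin Q.length))
    (h1 : IsFacet cs Q ω I) (h2 : x.1 ∈ LinExt cs Q I) : (fac cs Q ω hC x).1 = I :=
  ((hC.classes x.1 x.2).choose_spec.2 I ⟨h1, h2⟩).symm

lemma fac_eq_iff (hC : IsLatticeCongruence cs Q ω) (x y : Ival cs ω) :
    fac cs Q ω hC x = fac cs Q ω hC y ↔ Equ cs Q ω x.1 y.1 := by
  constructor
  · intro h
    refine ⟨(fac cs Q ω hC x).1, (fac_spec cs Q ω hC x).1, (fac_spec cs Q ω hC x).2, ?_⟩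
    rw [h]
    exact (fac_spec cs Q ω hC y).2
  · rintro ⟨I, h1, h2, h3⟩
    apply Subtype.ext
    rw [fac_unique cs Q ω hC x I h1 h2, fac_unique cs Q ω hC y I h1 h3]

/-- the bijection between the classes and the strongly acyclic facets -/
noncomputable def eqv (hC : IsLatticeCongruence cs Q ω) :
    Cls cs Q ω ≃ {I // StronglyAcyclic cs Q ω I} :=
  Equiv.ofBijective
    (Quot.lift (fac cs Q ω hC) (fun x y h => (fac_eq_iff cs Q ω hC x y).2 h)) (by
      constructor
      · intro a b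
        induction a using Quot.ind with | _ x =>
        induction b using Quot.ind with | _ y =>
        intro h
        exact Quot.sound ((fac_eq_iff cs Q ω hC x y).1 h)
      · rintro ⟨I, hI, x, hx, hxI⟩
        refine ⟨Quot.mk _ ⟨x, hx⟩, ?_⟩
        apply Subtype.ext
        exact fac_unique cs Q ω hC ⟨x, hx⟩ I hI hxI)

lemma eqv_mk (hC : IsLatticeCongruence cs Q ω) (x : Ival cs ω) :
    eqv cs Q ω hC (Quot.mk _ x) = fac cs Q ω hC x := rfl

lemma isK_fac (b0 : B) (hKUN : S_KUN cs) (hC : IsLatticeCongruence cs Q ω) (x : Ival cs ω)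
    (U : Finset ℕ) :
    IsK cs Q.length (qq b0 Q) ω x.1 U ↔ us Q (fac cs Q ω hC x).1 = U := by
  have h0 := (isK_us cs b0 Q ω x.1 _).2 (fac_spec cs Q ω hC x)
  constructor
  · intro h
    exact hKUN _ _ _ _ _ _ h0 h
  · rintro rfl
    exact h0

lemma le_iff (b0 : B) (hKUN : S_KUN cs) (hC : IsLatticeCongruence cs Q ω) (a b : Cls cs Q ω) :
    Cls.le cs Q ω a b ↔
      Qle cs Q.length (qq b0 Q) ω (us Q (eqv cs Q ω hC a).1) (us Q (eqv cs Q ω hC b).1) := by
  constructor
  · rintro ⟨x, y, j, rfl, rfl, h1, h2⟩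
    refine ⟨x.1, y.1, j.1, x.2, y.2, ?_, ?_, h1, ?_⟩
    · rw [isK_fac cs Q ω b0 hKUN hC x]; rfl
    · rw [isK_fac cs Q ω b0 hKUN hC y]; rfl
    · rw [isK_fac cs Q ω b0 hKUN hC j, ← h2]; rfl
  · rintro ⟨x, y, j, hx, hy, h1, h2, h3, h4⟩
    refine ⟨⟨x, hx⟩, ⟨y, hy⟩, ⟨j, h3.1⟩, ?_, ?_, h3, ?_⟩
    · apply (eqv cs Q ω hC).injective
      apply Subtype.ext
      apply us_injective Q
      exact (isK_fac cs Q ω b0 hKUN hC ⟨x, hx⟩ _).1 h1
    · apply (eqv cs Q ω hC).injective
      apply Subtype.ext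
      apply us_injective Q
      exact (isK_fac cs Q ω b0 hKUN hC ⟨y, hy⟩ _).1 h2
    · apply (eqv cs Q ω hC).injective
      apply Subtype.ext
      apply us_injective Q
      exact (isK_fac cs Q ω b0 hKUN hC ⟨j, h3.1⟩ _).1 h4

theorem cov_iff (b0 : B) (hKUN : S_KUN cs) (hHE : S_HE cs) (hG : S_GRAPH cs)
    (hQ : Alternating cs Q) (hC : IsLatticeCongruence cs Q ω) (a b : Cls cs Q ω) :
    Cls.cov cs Q ω a b ↔ Arc cs Q (eqv cs Q ω hC a).1 (eqv cs Q ω hC b).1 := by
  have hA := altM_us cs b0 Q hQ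
  have ha : SA cs Q.length (qq b0 Q) ω (us Q (eqv cs Q ω hC a).1) :=
    (sa_us cs b0 Q ω _).2 (eqv cs Q ω hC a).2
  have hb : SA cs Q.length (qq b0 Q) ω (us Q (eqv cs Q ω hC b).1) :=
    (sa_us cs b0 Q ω _).2 (eqv cs Q ω hC b).2
  rw [← arc_us cs b0, ← hG _ _ _ hA _ _ ha hb, ← hHE _ _ _ hA _ _ ha hb]
  constructor
  · rintro ⟨h1, h2, h3⟩
    refine ⟨(le_iff cs Q ω b0 hKUN hC a b).1 h1, ?_, ?_⟩
    · intro h
      exact h2 ((eqv cs Q ω hC).injective (Subtype.ext (us_injective Q h)))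
    · intro U hU hU1 hU2
      obtain ⟨x, hx, hxU⟩ := hU
      have e : us Q (eqv cs Q ω hC (Quot.mk _ ⟨x, hx⟩)).1 = U :=
        (isK_fac cs Q ω b0 hKUN hC ⟨x, hx⟩ U).1 hxU
      rw [← e] at hU1 hU2 ⊢
      rcases h3 _ ((le_iff cs Q ω b0 hKUN hC _ _).2 hU1) ((le_iff cs Q ω b0 hKUN hC _ _).2 hU2)
        with h | h
      · left; rw [h]
      · right; rw [h]
  · rintro ⟨h1, h2, h3⟩
    refine ⟨(le_iff cs Q ω b0 hKUN hC a b).2 h1, ?_, ?_⟩
    · rintro rfl; exact h2 rfl
    · intro c hc1 hc2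
      have hc : SA cs Q.length (qq b0 Q) ω (us Q (eqv cs Q ω hC c).1) :=
        (sa_us cs b0 Q ω _).2 (eqv cs Q ω hC c).2
      rcases h3 _ hc ((le_iff cs Q ω b0 hKUN hC _ _).1 hc1) ((le_iff cs Q ω b0 hKUN hC _ _).1 hc2)
        with h | h
      · left; exact (eqv cs Q ω hC).injective (Subtype.ext (us_injective Q h))
      · right; exact (eqv cs Q ω hC).injective (Subtype.ext (us_injective Q h))

end hasse

/-! ### sorting words -/

lemma sorting_us (b0 : B) (Q : List B) (hS : Sorting cs Q) (hSub : S_SUBW cs) :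
    ∀ w : W, ∃ U, IsFac cs Q.length (qq b0 Q) w U := by
  obtain ⟨w₀, hw, I, hI⟩ := hS
  exact hSub _ _ w₀ hw ⟨us Q I, (isFac_us cs b0 Q w₀ I).2 hI⟩

lemma acyclic_iff (b0 : B) (Q : List B) (hS : Sorting cs Q) (hSub : S_SUBW cs) (hSort : S_SORT cs)
    (ω : W) (I : Finset (Fin Q.length)) : StronglyAcyclic cs Q ω I ↔ Acyclic cs Q ω I := by
  constructor
  · rintro ⟨h, x, _, hx⟩
    exact ⟨h, x, hx⟩
  · rintro ⟨h, x, hx⟩
    exact ⟨h, x, hSort _ _ (sorting_us cs b0 Q hS hSub) ω x _ ((isK_us cs b0 Q ω x I).2 ⟨h, hx⟩), hx⟩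

end Pool.Agent.W236.SCF
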