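import Pool.Agent.Helper741.GeomRep

/-!
# Subword complexes: the definitions used in the statements

`cs : CoxeterSystem M W` is a Coxeter system with finite set of generators `B`; `geo cs : W →* End (B → ℝ)` is its
geometric representation on `B → ℝ` with simple roots `ee i` (the standard basis) and form
`(ee i, ee j) = - 2 cos (π / m_ij)`.
-/

set_option autoImplicit false

namespace Pool.Agent.W236.SWC

open Pool.Agent.Helper741

universe u v

variable {B : Type u} [Fintype B] [DecidableEq B] {M : CoxeterMatrix B}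
variable {W : Type v} [Group W] (cs : CoxeterSystem M W)

/-- the positive roots -/
def PosRoots : Set (B → ℝ) := {β | (∃ (w : W) (i : B), β = geo cs w (ee i)) ∧ 0 ≤ β}

/-- `pre Q I k` is the product, in increasing order, of the letters of `Q` at the positions `j < k`, `j ∉ I`
(positions are numbered from `0`). -/
noncomputable def pre (Q : List B) (I : Finset (Fin Q.length)) : ℕ → W
  | 0 => 1
  | k + 1 => if h : k < Q.length then
      (if (⟨k, h⟩ : Fin Q.length) ∈ I then pre Q I k else pre Q I k * cs.simple (Q.get ⟨k, h⟩))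
      else pre Q I k

/-- `I` is a facet of the subword complex `S(Q, ω)`: the letters outside `I` form a reduced expression
of `ω`. -/
def IsFacet (Q : List B) (ω : W) (I : Finset (Fin Q.length)) : Prop :=
  pre cs Q I Q.length = ω ∧ (Iᶜ).card = cs.length ω

/-- root function `r(I, k)` -/
noncomputable def root (Q : List B) (I : Finset (Fin Q.length)) (k : Fin Q.length) : B → ℝ :=
  geo cs (pre cs Q I k) (ee (Q.get k))

/-- the linear extensions of `I`: the `π ∈ W` with `R(I) ⊆ π (Φ⁺)` -/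
def LinExt (Q : List B) (I : Finset (Fin Q.length)) : Set W :=
  {π | ∀ k ∈ I, ∃ β ∈ PosRoots cs, root cs Q I k = geo cs π β}

/-- alternating words: for non-commuting `s, t`, the occurrences of `s` and `t` alternate, i.e. between two
occurrences of `s` there is an occurrence of `t` -/
def Alternating (Q : List B) : Prop :=
  ∀ s t : B, cs.simple s * cs.simple t ≠ cs.simple t * cs.simple s →
    ∀ i j : Fin Q.length, i < j → Q.get i = s → Q.get j = s → ∃ k, i < k ∧ k < j ∧ Q.get k = t

/-- right weak order: `u ≤ v` iff `ℓ(u) + ℓ(u⁻¹ v) = ℓ(v)` -/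
def WLe (u v : W) : Prop := cs.length u + cs.length (u⁻¹ * v) = cs.length v

/-- `j` is the join of `x` and `y` in the interval `[1, ω]` -/
def IsJn (ω x y j : W) : Prop := WLe cs j ω ∧ WLe cs x j ∧ WLe cs y j ∧
  ∀ u, WLe cs u ω → WLe cs x u → WLe cs y u → WLe cs j u

/-- `m` is the meet of `x` and `y` in the interval `[1, ω]` -/
def IsMt (ω x y m : W) : Prop := WLe cs m ω ∧ WLe cs m x ∧ WLe cs m y ∧
  ∀ u, WLe cs u ω → WLe cs u x → WLe cs u y → WLe cs u m

/-- the subword complex equivalence `≡_{Q,ω}` -/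
def Equ (Q : List B) (ω x y : W) : Prop :=
  ∃ I, IsFacet cs Q ω I ∧ x ∈ LinExt cs Q I ∧ y ∈ LinExt cs Q I

/-- `≡_{Q,ω}` is a lattice congruence of the interval `[1, ω]` of the right weak order `WLe`: every element of
the interval lies in exactly one `L(I)`, the interval is a lattice (joins `IsJn` and meets `IsMt` in
`[1, ω]` exist), and `≡` is compatible with joins and meets. -/
structure IsLatticeCongruence (Q : List B) (ω : W) : Prop where
  classes : ∀ x, WLe cs x ω → ∃! I, IsFacet cs Q ω I ∧ x ∈ LinExt cs Q I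
  join : ∀ x y, WLe cs x ω → WLe cs y ω → ∃ j, IsJn cs ω x y j
  meet : ∀ x y, WLe cs x ω → WLe cs y ω → ∃ m, IsMt cs ω x y m
  joinC : ∀ x y z a b, WLe cs x ω → WLe cs y ω → WLe cs z ω → Equ cs Q ω x y →
    IsJn cs ω x z a → IsJn cs ω y z b → Equ cs Q ω a b
  meetC : ∀ x y z a b, WLe cs x ω → WLe cs y ω → WLe cs z ω → Equ cs Q ω x y →
    IsMt cs ω x z a → IsMt cs ω y z b → Equ cs Q ω a b

/-- the interval `[1, ω]` -/
abbrev Ival (ω : W) : Type v := {x : W // WLe cs x ω}

/-- the set `[1, ω] / ≡` of classes -/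
def Cls (Q : List B) (ω : W) : Type v := Quot (fun x y : Ival cs ω => Equ cs Q ω x.1 y.1)

/-- the order of the quotient lattice: `a ≤ b` iff `a ∨ b = b`, where `[x] ∨ [y] = [x ∨ y]` -/
def Cls.le (Q : List B) (ω : W) (a b : Cls cs Q ω) : Prop :=
  ∃ x y j : Ival cs ω, Quot.mk _ x = a ∧ Quot.mk _ y = b ∧ IsJn cs ω x.1 y.1 j.1 ∧ Quot.mk _ j = b

/-- the arcs of the Hasse diagram of the quotient: cover relations, oriented upward -/
def Cls.cov (Q : List B) (ω : W) (a b : Cls cs Q ω) : Prop :=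
  Cls.le cs Q ω a b ∧ a ≠ b ∧ ∀ c, Cls.le cs Q ω a c → Cls.le cs Q ω c b → c = a ∨ c = b

/-- the cone generated by the root configuration of `I` -/
def Cone (Q : List B) (I : Finset (Fin Q.length)) : Set (B → ℝ) :=
  {x | ∃ c : Fin Q.length → ℝ, (∀ k, 0 ≤ c k) ∧ x = ∑ k ∈ I, c k • root cs Q I k}

/-- the ray spanned by `r` is an extreme ray of the convex cone `C` -/
def IsExtremeRay (C : Set (B → ℝ)) (r : B → ℝ) : Prop :=
  r ∈ C ∧ r ≠ 0 ∧ ∀ x ∈ C, ∀ y ∈ C, (∃ a : ℝ, 0 ≤ a ∧ x + y = a • r) →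
    (∃ a : ℝ, 0 ≤ a ∧ x = a • r) ∧ (∃ a : ℝ, 0 ≤ a ∧ y = a • r)

/-- extremal increasing flip from `I` to `J` -/
def Arc (Q : List B) (I J : Finset (Fin Q.length)) : Prop :=
  ∃ i j, i ∈ I ∧ j ∈ J ∧ I.erase i = J.erase j ∧ i < j ∧
    IsExtremeRay (Cone cs Q I) (root cs Q I i)

/-- strongly acyclic facets -/
def StronglyAcyclic (Q : List B) (ω : W) (I : Finset (Fin Q.length)) : Prop :=
  IsFacet cs Q ω I ∧ ∃ π, WLe cs π ω ∧ π ∈ LinExt cs Q I

/-- acyclic facets -/
def Acyclic (Q : List B) (ω : W) (I : Finset (Fin Q.length)) : Prop :=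
  IsFacet cs Q ω I ∧ ∃ π, π ∈ LinExt cs Q I

/-- `Q` is sorting: it contains a reduced expression of the longest element as a subword -/
def Sorting (Q : List B) : Prop :=
  ∃ w₀ : W, (∀ w, cs.length w ≤ cs.length w₀) ∧ ∃ I, IsFacet cs Q w₀ I

end Pool.Agent.W236.SWC
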