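import Pool.Agent.W236.SC.PDefs
import Pool.Agent.W236.SC.All3

/-!
# The theorems on subword complexes of alternating words, all finite Coxeter groups
-/

set_option autoImplicit false

namespace Pool.Agent.W236.SWC

open Pool.Agent.Helper741

universe u v

variable {B : Type u} [Fintype B] [DecidableEq B] {M : CoxeterMatrix B}
variable {W : Type v} [Group W] (cs : CoxeterSystem M W)

lemma pre_eq (Q : List B) (I : Finset (Fin Q.length)) (k : ℕ) :
    pre cs Q I k = SCF.pre cs Q I k := by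
  induction k with
  | zero => rfl
  | succ k ih => rw [pre, SCF.pre, ih]

lemma isFacet_eq : @IsFacet B M W _ cs = @SCF.IsFacet B M W _ cs := by
  funext Q ω I
  rw [IsFacet, SCF.IsFacet, pre_eq]

lemma root_eq : root cs = SCF.root cs := by
  funext Q I k
  rw [root, SCF.root, pre_eq]

lemma linExt_eq : LinExt cs = SCF.LinExt cs := by
  funext Q I
  rw [LinExt, SCF.LinExt, root_eq]
  rfl

lemma equ_eq : Equ cs = SCF.Equ cs := by
  funext Q ω x y
  rw [Equ, SCF.Equ, isFacet_eq, linExt_eq]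

lemma wle_eq : @WLe B M W _ cs = @SC.WLe B M W _ cs := rfl

lemma isJn_eq : @IsJn B M W _ cs = @SC.IsJn B M W _ cs := rfl

lemma isMt_eq : @IsMt B M W _ cs = @SC.IsMt B M W _ cs := rfl

lemma cone_eq : Cone cs = SCF.Cone cs := by
  funext Q I
  rw [Cone, SCF.Cone, root_eq]

lemma isExtremeRay_eq : @IsExtremeRay B = @SCF.IsExtremeRay B := rfl

lemma arc_eq : Arc cs = SCF.Arc cs := by
  funext Q I J
  rw [Arc, SCF.Arc, cone_eq, root_eq, isExtremeRay_eq]

lemma strongly_eq : StronglyAcyclic cs = SCF.StronglyAcyclic cs := by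
  funext Q ω I
  rw [StronglyAcyclic, SCF.StronglyAcyclic, isFacet_eq, linExt_eq, wle_eq]

lemma acyclic_eq : Acyclic cs = SCF.Acyclic cs := by
  funext Q ω I
  rw [Acyclic, SCF.Acyclic, isFacet_eq, linExt_eq]

lemma alternating_eq : @Alternating B M W _ cs = @SCF.Alternating B M W _ cs := rfl

lemma sorting_eq : @Sorting B M W _ cs = @SCF.Sorting B M W _ cs := by
  funext Q
  rw [Sorting, SCF.Sorting, isFacet_eq]

lemma latCong_of_scf (Q : List B) (ω : W) (h : SCF.IsLatticeCongruence cs Q ω) :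
    IsLatticeCongruence cs Q ω := by
  obtain ⟨h1, h2, h3, h4, h5⟩ := h
  rw [← isFacet_eq, ← linExt_eq] at h1
  rw [← equ_eq] at h4 h5
  exact ⟨h1, h2, h3, h4, h5⟩

lemma cls_eq : Cls cs = SCF.Cls cs := by
  funext Q ω
  rw [Cls, SCF.Cls, equ_eq]
  rfl

/-- transport of the Hasse diagram theorem -/
theorem hasse_transport (Q : List B) (ω : W) (P : Finset (Fin Q.length) → Prop)
    (h : ∃ e : SCF.Cls cs Q ω ≃ {I : Finset (Fin Q.length) // P I},
      (∀ x : SCF.Ival cs ω, x.1 ∈ SCF.LinExt cs Q (e (Quot.mk _ x)).1) ∧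
      ∀ a b, SCF.Cls.cov cs Q ω a b ↔ SCF.Arc cs Q (e a).1 (e b).1) :
    ∃ e : Cls cs Q ω ≃ {I : Finset (Fin Q.length) // P I},
      (∀ x : Ival cs ω, x.1 ∈ LinExt cs Q (e (Quot.mk _ x)).1) ∧
      ∀ a b, Cls.cov cs Q ω a b ↔ Arc cs Q (e a).1 (e b).1 := by
  rw [← linExt_eq, ← arc_eq] at h
  unfold SCF.Cls.cov SCF.Cls.le SCF.Cls SCF.Ival at h
  rw [← equ_eq] at h
  exact h

/-- the lattice congruence theorem -/
theorem latCong [Finite W] (Q : List B) (ω : W) (hQ : Alternating cs Q)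
    (hne : ∃ I, IsFacet cs Q ω I) : IsLatticeCongruence cs Q ω := by
  rw [isFacet_eq] at hne
  exact latCong_of_scf cs Q ω (SCF.latCong cs Q ω hQ hne)

/-- the Hasse diagram theorem -/
theorem hasse [Finite W] (Q : List B) (ω : W) (hQ : Alternating cs Q)
    (hne : ∃ I, IsFacet cs Q ω I) :
    ∃ e : Cls cs Q ω ≃ {I : Finset (Fin Q.length) // StronglyAcyclic cs Q ω I},
      (∀ x : Ival cs ω, x.1 ∈ LinExt cs Q (e (Quot.mk _ x)).1) ∧
      ∀ a b, Cls.cov cs Q ω a b ↔ Arc cs Q (e a).1 (e b).1 := by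
  rw [isFacet_eq] at hne
  rw [strongly_eq]
  exact hasse_transport cs Q ω _ (SCF.hasse cs Q ω hQ (SCF.latCong cs Q ω hQ hne))

/-- sorting alternating words -/
theorem sorting [Finite W] (Q : List B) (ω : W) (hS : Sorting cs Q) (hQ : Alternating cs Q) :
    IsLatticeCongruence cs Q ω ∧
    ∃ e : Cls cs Q ω ≃ {I : Finset (Fin Q.length) // Acyclic cs Q ω I},
      (∀ x : Ival cs ω, x.1 ∈ LinExt cs Q (e (Quot.mk _ x)).1) ∧
      ∀ a b, Cls.cov cs Q ω a b ↔ Arc cs Q (e a).1 (e b).1 := by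
  rw [sorting_eq] at hS
  have h := SCF.sorting cs Q ω hS hQ
  rw [acyclic_eq]
  exact ⟨latCong_of_scf cs Q ω h.1, hasse_transport cs Q ω _ h.2⟩

end Pool.Agent.W236.SWC
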